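import Pool.Agent.Q225.Dich.Open

set_option autoImplicit false
set_option linter.unusedSectionVars false

/-!
# The dichotomy
-/

namespace Pool.Agent.Q225.Dich

open Matrix Pool.Agent.Q225.Add Pool.Agent.W956.KF

/-- The sizes `n` for which the expression is defined at some tuple of `n × n` matrices over `F`. -/
def Sizes {F V : Type} [Field F] (e : Ex F V) : Set ℕ :=
  {n | ∃ X : V → Matrix (Fin n) (Fin n) F, e.Ok X}

/-- The expression takes the values `μ + ∑ v, lam v * X v` with `μ, lam v ∈ F`, at all tuples of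
square matrices over `F` at which it is defined. -/
def IsAffine {F V : Type} [Field F] [Fintype V] (e : Ex F V) : Prop :=
  ∃ (μ : F) (lam : V → F), ∀ (n : ℕ) (X : V → Matrix (Fin n) (Fin n) F), e.Ok X →
    e.ev X = algebraMap F _ μ + ∑ v, algebraMap F _ (lam v) * X v

/-- The elements of `Z` can be computed with at most `s` additions, multiplications and
inversions. -/
def CompT (F : Type) [Field F] (V : Type) (Z : Set (Rt F V)) (s : ℕ) : Prop :=
  ∃ T', ReachLe (Given F V) s T' ∧ Z ⊆ T'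

section meas

variable {K : Type} [Field K] {F : Type} [Field F] [Algebra F K]

/-- a sequence of multiplications and divisions, linear combinations free -/
def RM (F : Type) [Field F] [Algebra F K] (B : Set K) {s : ℕ} (h : Fin s → K) : Prop :=
  ∀ t, ∃ u v, u ∈ Submodule.span F (B ∪ {z | ∃ t' < t, z = h t'}) ∧
    v ∈ Submodule.span F (B ∪ {z | ∃ t' < t, z = h t'}) ∧ (h t = u * v ∨ h t = u / v)

theorem RM.snoc {B : Set K} {s : ℕ} {h : Fin s → K} (hr : RM F B h) {u v x : K}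
    (hu : u ∈ Submodule.span F (B ∪ Set.range h)) (hv : v ∈ Submodule.span F (B ∪ Set.range h))
    (hx : x = u * v ∨ x = u / v) :
    RM F B (Fin.snoc h x : Fin (s + 1) → K) := by
  intro t
  refine Fin.lastCases ?_ (fun t => ?_) t
  · refine ⟨u, v, Submodule.span_mono ?_ hu, Submodule.span_mono ?_ hv, by simpa using hx⟩ <;>
    · refine Set.union_subset_union_right _ ?_
      rintro z ⟨t', rfl⟩
      exact ⟨t'.castSucc, Fin.castSucc_lt_last t', by simp⟩
  · obtain ⟨u', v', h1, h2, h3⟩ := hr t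
    refine ⟨u', v', Submodule.span_mono ?_ h1, Submodule.span_mono ?_ h2, by simpa using h3⟩ <;>
    · refine Set.union_subset_union_right _ ?_
      rintro z ⟨t', ht', rfl⟩
      exact ⟨t'.castSucc, Fin.castSucc_lt_castSucc_iff.2 ht', by simp⟩

theorem runM_of_reachD {B T : Set K} {s : ℕ} (hone : (1 : K) ∈ B) (h : ReachD B s T) :
    ∃ s' ≤ s, ∃ h : Fin s' → K, RM F B h ∧ ∀ z ∈ T, z ∈ Submodule.span F (B ∪ Set.range h) := by
  induction h with
  | refl =>
    exact ⟨0, le_rfl, fun t => t.elim0, fun t => t.elim0, fun z hz =>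
      Submodule.subset_span (Or.inl hz)⟩
  | @add s T x y _ hx hy ih =>
    obtain ⟨s', hs', h, hr, hT⟩ := ih
    refine ⟨s', by omega, h, hr, ?_⟩
    rintro z (rfl | hz)
    · exact Submodule.add_mem _ (hT x hx) (hT y hy)
    · exact hT z hz
  | @mul s T x y _ hx hy ih =>
    obtain ⟨s', hs', h, hr, hT⟩ := ih
    refine ⟨s' + 1, by omega, _, hr.snoc (hT x hx) (hT y hy) (Or.inl rfl), ?_⟩
    rintro z (rfl | hz)
    · exact Submodule.subset_span (Or.inr (mem_snoc _ _))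
    · exact Submodule.span_mono (Set.union_subset_union_right _ (range_snoc_sub _ _)) (hT z hz)
  | @inv s T x _ hx ih =>
    obtain ⟨s', hs', h, hr, hT⟩ := ih
    refine ⟨s' + 1, by omega, _, hr.snoc (Submodule.subset_span (Or.inl hone)) (hT x hx)
      (Or.inr (by rw [one_div])), ?_⟩
    rintro z (rfl | hz)
    · exact Submodule.subset_span (Or.inr (mem_snoc _ _))
    · exact Submodule.span_mono (Set.union_subset_union_right _ (range_snoc_sub _ _)) (hT z hz)

end meas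

section

variable {F V : Type} [Field F]

theorem CompT.compM {Z : Set (Rt F V)} {s : ℕ} (h : CompT F V Z s) :
    ∃ s' ≤ s, CompM F V Z s' := by
  obtain ⟨T, ⟨a, ha, h⟩, hZ⟩ := h
  have hone : (1 : Rt F V) ∈ Given F V := Or.inl ⟨1, map_one _⟩
  obtain ⟨s', hs', g, h1, h2⟩ := runM_of_reachD (F := F) hone h
  exact ⟨s', hs'.trans ha, g, h1, fun z hz => h2 z (hZ hz)⟩

theorem CompT.compP {Z : Set (Rt F V)} {s : ℕ} (h : CompT F V Z s) :
    ∃ s' ≤ s, CompP F V Z s' := by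
  obtain ⟨T, h, hZ⟩ := h
  exact compP_of_reach h hZ

theorem CompT.compU (h2 : (2 : F) ≠ 0) {Z : Set (Rt F V)} {s : ℕ} (h : CompT F V Z s) :
    ∃ s' ≤ 3 * s, CompU F V Z s' := by
  obtain ⟨T, h, hZ⟩ := h
  exact compU_of_reach h2 h hZ

end

section

variable {F V : Type} [Field F] [Infinite F] [Fintype V] [DecidableEq V]

theorem sizes_iff (e : Ex F V) (n : ℕ) : n ∈ Sizes e ↔ e.Ok (genM F V (Fin n)) := by
  constructor
  · rintro ⟨X, hX⟩
    exact (value e X hX).1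
  · intro h
    obtain ⟨C, -, hC⟩ := exists_ok e h (P := 1) one_ne_zero
    exact ⟨C, hC⟩

theorem sizes_add (e : Ex F V) {n n' : ℕ} (h : n ∈ Sizes e) (h' : n' ∈ Sizes e) :
    n + n' ∈ Sizes e := by
  obtain ⟨X, hX⟩ := h
  obtain ⟨Y, hY⟩ := h'
  have h1 := (Ex.ok_prod e hX hY).1
  have h2 := (Ex.map (blk F F (Fin n) (Fin n')) e h1).1
  exact ⟨_, ok_submatrix finSumFinEquiv.symm e _ h2⟩

theorem sizes_infinite (e : Ex F V) {k : ℕ} (hk : 1 ≤ k) (h : k ∈ Sizes e) :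
    (Sizes e).Infinite := by
  have h1 : ∀ j : ℕ, (j + 1) * k ∈ Sizes e := by
    intro j
    induction j with
    | zero => simpa using h
    | succ j ih =>
      have := sizes_add e ih h
      rwa [show (j + 1) * k + k = (j + 1 + 1) * k by ring] at this
  refine Set.infinite_of_injective_forall_mem (f := fun j : ℕ => (j + 1) * k) ?_ h1
  intro i j hij
  have := Nat.eq_of_mul_eq_mul_right (by omega) hij
  omega

/-- the number of multiplications and divisions for affine expressions -/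
theorem IsAffine.compM {e : Ex F V} (h : IsAffine e) {n : ℕ} (hn : n ∈ Sizes e) :
    CompM F _ (entSet e (Fin n)) 0 := by
  obtain ⟨μ, lam, H⟩ := h
  refine ⟨fun t => t.elim0, fun t => t.elim0, ?_⟩
  rintro _ ⟨⟨i, j⟩, rfl⟩
  simp only
  rw [affine_gen e ((sizes_iff e n).1 hn) μ lam (H n) i j]
  refine Submodule.add_mem _ (Submodule.subset_span (Or.inl (Or.inl ⟨_, rfl⟩)))
    (Submodule.sum_mem _ fun v _ => ?_)
  rw [← Algebra.smul_def]
  exact Submodule.smul_mem _ _ (Submodule.subset_span (Or.inl (Or.inr ⟨_, rfl⟩)))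

/-- sizes in a given residue class -/
theorem exists_base (S : Set ℕ) (q : ℕ) (hq : 1 ≤ q) : ∃ N : ℕ, ∀ n ∈ S, ∃ n₀ ∈ S,
    n₀ ≤ N ∧ n₀ ≤ n ∧ ∃ m, n = q * m + n₀ := by
  classical
  have h1 : ∀ r : Fin q, ∃ b : ℕ, (∃ n ∈ S, n % q = r) → b ∈ S ∧ b % q = r ∧
      ∀ n ∈ S, n % q = r → b ≤ n := by
    intro r
    by_cases h : ∃ n ∈ S, n % q = r
    · refine ⟨Nat.find h, fun _ => ⟨(Nat.find_spec h).1, (Nat.find_spec h).2, fun n hn hr =>
        Nat.find_min' h ⟨hn, hr⟩⟩⟩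
    · exact ⟨0, fun h' => absurd h' h⟩
  choose b hb using h1
  refine ⟨Finset.univ.sup b, fun n hn => ?_⟩
  obtain ⟨h2, h3, h4⟩ := hb ⟨n % q, Nat.mod_lt _ (by omega)⟩ ⟨n, hn, rfl⟩
  refine ⟨_, h2, Finset.le_sup (f := b) (Finset.mem_univ _), h4 n hn rfl, ?_⟩
  set n₀ := b ⟨n % q, Nat.mod_lt _ (by omega)⟩ with hn₀
  have h5 : n₀ ≤ n := h4 n hn rfl
  have h6 : q ∣ n - n₀ := (Nat.modEq_iff_dvd' h5).1 h3
  obtain ⟨m, hm⟩ := h6
  exact ⟨m, by omega⟩

/-- **The lower bounds.** -/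
theorem lower_bounds (e : Ex F V) (h : ¬ IsAffine e) :
    (Sizes e).Infinite ∧ ∃ c : ℝ, 0 < c ∧ ∃ n₁ : ℕ, ∀ n ∈ Sizes e, n₁ ≤ n → ∀ s : ℕ,
      (CompM F _ (entSet e (Fin n)) s → c * (n : ℝ) ^ omega F ≤ s) ∧
      (CompU F _ (entSet e (Fin n)) s → c * (n : ℝ) ^ omega F ≤ s) ∧
      (CompP F _ (entSet e (Fin n)) s → c * (n : ℝ) ^ omega F ≤ s + (n : ℝ) ^ 2) := by
  have hflat : ∃ k, ¬ Flat F V (Matrix (Fin k) (Fin k) F) e := by
    by_contra hcon
    push Not at hcon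
    exact h (affine_all hcon)
  obtain ⟨k, hk⟩ := hflat
  unfold Flat at hk
  push Not at hk
  obtain ⟨a, c, d, ha, hc, hd, b, b', hM⟩ := hk
  obtain ⟨i₀, j₀, hM⟩ : ∃ i₀ j₀, dg a c d e b b' i₀ j₀ ≠ 0 := by
    by_contra hcon
    push Not at hcon
    exact hM (Matrix.ext hcon)
  have hk1 : 1 ≤ k := by
    have := i₀.2
    omega
  refine ⟨sizes_infinite e hk1 ⟨a, ha⟩, ?_⟩
  obtain ⟨N, hN⟩ := exists_base (Sizes e) (3 * k) (by omega)
  have hom : 0 ≤ omega F := by
    rw [omega_eq]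
    exact Pool.Agent.H826R3.SM.omega_nonneg
  have hk0 : (0 : ℝ) < 6 * k := by
    have : (0 : ℝ) < k := by exact_mod_cast hk1
    positivity
  refine ⟨(6 * k : ℝ)⁻¹ ^ omega F / 3, by positivity, 2 * N + 3 * k, fun n hn hn1 s => ?_⟩
  obtain ⟨n₀, ⟨w, hw⟩, hN1, hN2, m, hm⟩ := hN n hn
  have hm1 : 1 ≤ m := by
    by_contra hcon
    have : m = 0 := by omega
    subst this
    omega
  have hmn : n ≤ 6 * k * m := by nlinarith
  have hm' : (6 * k : ℝ)⁻¹ ^ omega F * (n : ℝ) ^ omega F ≤ (m : ℝ) ^ omega F := by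
    rw [← Real.mul_rpow (by positivity) (Nat.cast_nonneg n)]
    refine Real.rpow_le_rpow (by positivity) ?_ hom
    rw [inv_mul_le_iff₀ hk0]
    exact_mod_cast hmn
  have hmn' : (m : ℝ) ^ 2 ≤ (n : ℝ) ^ 2 := by
    have : m ≤ n := by nlinarith
    have : (m : ℝ) ≤ n := by exact_mod_cast this
    gcongr
  let ε : Fin n ≃ Ix k m n₀ := Fintype.equivOfCardEq (by
    simp only [Fintype.card_fin, Fintype.card_sum, Fintype.card_prod]
    rw [hm]
    ring)
  have hx0 : 0 ≤ (6 * k : ℝ)⁻¹ ^ omega F * (n : ℝ) ^ omega F := by positivity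
  have hs0 : (0 : ℝ) ≤ s := Nat.cast_nonneg s
  refine ⟨fun hs => ?_, fun hs => ?_, fun hs => ?_⟩
  · have := lower_M ε hm1 e b b' ha hc hd hw hM hs
    rw [← omega_eq] at this
    linarith
  · have := lower_U ε hm1 e b b' ha hc hd hw hM hs
    rw [← omega_eq] at this
    linarith
  · have := lower_P ε hm1 e b b' ha hc hd hw hM hs
    rw [← omega_eq] at this
    have h0 : (0 : ℝ) ≤ (n : ℝ) ^ 2 := by positivity
    linarith

/-- **The upper bounds.** -/
theorem upper_bounds (e : Ex F V) {τ : ℝ} (hτ : omega F < τ) :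
    ∃ D : ℝ, ∀ n ∈ Sizes e, ∃ s : ℕ, (s : ℝ) ≤ D * (n : ℝ) ^ τ ∧
      CompT F _ (entSet e (Fin n)) s := by
  rw [omega_eq] at hτ
  obtain ⟨D, hD0, hD⟩ := cost_upper e hτ
  refine ⟨D, fun n hn => ?_⟩
  rcases Nat.eq_zero_or_pos n with h0 | h0
  · subst h0
    refine ⟨0, by rw [Nat.cast_zero]; positivity, Given F _, ⟨0, le_rfl, .refl⟩, ?_⟩
    rintro _ ⟨⟨i, _⟩, rfl⟩
    exact i.elim0
  · obtain ⟨T', h1, h2⟩ := reach_ex (genM F V (Fin n)) e ((sizes_iff e n).1 hn)
      (T := Given F (V × Fin n × Fin n)) (fun c => Or.inl ⟨c, rfl⟩)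
      (fun v i j => Or.inr ⟨(v, i, j), rfl⟩)
    refine ⟨cost n e, hD n h0, T', h1, ?_⟩
    rintro _ ⟨⟨i, j⟩, rfl⟩
    exact h2 i j

end

end Pool.Agent.Q225.Dich
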