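import Pool.Agent.Q225.Dich.Jet
import Pool.Agent.H826R3.SM.Rank

set_option autoImplicit false
set_option linter.unusedSectionVars false

/-!
# From decompositions over the field of rational functions to approximate decompositions
-/

namespace Pool.Agent.Q225.Dich

open Finset Pool.Agent.Q225.Add Pool.Agent.W956.KF

section

variable {F σ : Type} [Field F]

/-- common denominators -/
theorem common_den {I : Type} [Fintype I] (f : I → Rt F σ) :
    ∃ d : MvPolynomial σ F, d ≠ 0 ∧ ∃ a : I → MvPolynomial σ F,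
      ∀ i, algebraMap _ (Rt F σ) (a i) = algebraMap _ (Rt F σ) d * f i := by
  classical
  obtain ⟨d, hd⟩ := IsLocalization.exist_integer_multiples_of_finset
    (nonZeroDivisors (MvPolynomial σ F)) (univ.image f)
  have h : ∀ i, ∃ a : MvPolynomial σ F, algebraMap _ (Rt F σ) a =
      algebraMap _ (Rt F σ) (d : MvPolynomial σ F) * f i := by
    intro i
    obtain ⟨u, hu⟩ := hd (f i) (mem_image_of_mem _ (mem_univ i))
    exact ⟨u, by rw [hu, Algebra.smul_def]⟩
  choose a ha using h
  exact ⟨d, nonZeroDivisors.ne_zero d.2, a, ha⟩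

/-- common denominators for functions which are defined at `c` -/
theorem common_val {I : Type} [Fintype I] (c : σ → F) (f : I → Rt F σ) (v : I → F)
    (h : ∀ i, Vl c (f i) (v i)) :
    ∃ g : MvPolynomial σ F, MvPolynomial.aeval c g ≠ 0 ∧ ∃ a : I → MvPolynomial σ F,
      ∀ i, algebraMap _ (Rt F σ) (a i) = algebraMap _ (Rt F σ) g * f i ∧
        MvPolynomial.aeval c (a i) = MvPolynomial.aeval c g * v i := by
  classical
  choose a g h1 h2 h3 using fun i => (h i).frac
  refine ⟨∏ i, g i, ?_, fun i => a i * ∏ j ∈ univ.erase i, g j, fun i => ⟨?_, ?_⟩⟩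
  · rw [map_prod]
    exact prod_ne_zero_iff.2 fun i _ => h1 i
  · have e : (∏ j, g j) = g i * ∏ j ∈ univ.erase i, g j :=
      (mul_prod_erase univ g (mem_univ i)).symm
    rw [e, map_mul, map_mul, ← h2]
    ring
  · have e : (∏ j, g j) = g i * ∏ j ∈ univ.erase i, g j :=
      (mul_prod_erase univ g (mem_univ i)).symm
    rw [e, map_mul, map_mul, ← h3]
    ring

theorem exists_shift [Infinite F] (c : σ → F) {d : MvPolynomial σ F} (hd : d ≠ 0) :
    ∃ θ : MvPolynomial σ F →ₐ[F] Polynomial F, θ d ≠ 0 ∧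
      ∀ a, (θ a).eval 0 = MvPolynomial.aeval c a := by
  obtain ⟨p, hp⟩ : ∃ p : σ → F, MvPolynomial.eval p d ≠ 0 := by
    by_contra hcon
    push Not at hcon
    exact hd (MvPolynomial.funext fun p => by rw [hcon p, map_zero])
  let θ : MvPolynomial σ F →ₐ[F] Polynomial F := MvPolynomial.aeval fun v =>
    Polynomial.C (c v) + Polynomial.X * Polynomial.C (p v - c v)
  have h0 : ∀ (x : F) (a : MvPolynomial σ F), (θ a).eval x =
      MvPolynomial.aeval (fun v => c v + x * (p v - c v)) a := by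
    intro x a
    induction a using MvPolynomial.induction_on with
    | C a => simp [θ]
    | add a b ha hb => rw [map_add, Polynomial.eval_add, ha, hb, map_add]
    | mul_X a v ha => simp [θ, map_mul, Polynomial.eval_mul, ← ha]
  refine ⟨θ, fun h => hp ?_, fun a => ?_⟩
  · have h1 := h0 1 d
    rw [h, Polynomial.eval_zero] at h1
    have h2 : (fun v => c v + 1 * (p v - c v)) = p := by
      funext v
      ring
    rw [h2] at h1
    exact h1.symm
  · rw [h0 0 a]
    congr 2
    funext v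
    ring

theorem exists_factor {q : Polynomial F} (hq : q ≠ 0) : ∃ (n : ℕ) (u : Polynomial F),
    q = Polynomial.X ^ n * u ∧ u.eval 0 ≠ 0 := by
  obtain ⟨u, hu, hu'⟩ := Polynomial.exists_eq_pow_rootMultiplicity_mul_and_not_dvd q hq 0
  rw [map_zero, sub_zero] at hu hu'
  refine ⟨_, u, hu, fun h => hu' ?_⟩
  rw [Polynomial.X_dvd_iff, Polynomial.coeff_zero_eq_eval_zero]
  exact h

/-- **Approximate decompositions.** -/
theorem border [Infinite F] {I J L : Type} [Fintype I] [Fintype J] [Fintype L] {r : ℕ}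
    (c : σ → F) (A : Fin r → I → Rt F σ) (B : Fin r → J → Rt F σ) (C : Fin r → L → Rt F σ)
    (T : I → J → L → F) (h : ∀ i j l, Vl c (∑ t, A t i * B t j * C t l) (T i j l)) :
    ∃ (n : ℕ) (A' : Fin r → I → Polynomial F) (B' : Fin r → J → Polynomial F)
      (C' : Fin r → L → Polynomial F) (P : I → J → L → Polynomial F), ∀ i j l,
      ∑ t, A' t i * B' t j * C' t l = Polynomial.X ^ n * P i j l ∧
      (P i j l).eval 0 = T i j l := by
  obtain ⟨dA, hdA, a, ha⟩ := common_den (fun z : Fin r × I => A z.1 z.2)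
  obtain ⟨dB, hdB, b, hb⟩ := common_den (fun z : Fin r × J => B z.1 z.2)
  obtain ⟨dC, hdC, u, hu⟩ := common_den (fun z : Fin r × L => C z.1 z.2)
  obtain ⟨g, hg, w, hw⟩ := common_val c
    (fun z : I × J × L => ∑ t, A t z.1 * B t z.2.1 * C t z.2.2)
    (fun z => T z.1 z.2.1 z.2.2) (fun z => h z.1 z.2.1 z.2.2)
  have key : ∀ i j l, ∑ t, g * a (t, i) * b (t, j) * u (t, l) =
      dA * dB * dC * w (i, j, l) := by
    intro i j l
    apply IsFractionRing.injective (MvPolynomial σ F) (Rt F σ)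
    rw [map_sum, map_mul, (hw (i, j, l)).1]
    simp only [map_mul, ha, hb, hu, Finset.mul_sum]
    exact sum_congr rfl fun t _ => by ring
  have hd : dA * dB * dC ≠ 0 := mul_ne_zero (mul_ne_zero hdA hdB) hdC
  obtain ⟨θ, hθ, hθ0⟩ := exists_shift c hd
  obtain ⟨n, q, hq, hq0⟩ := exists_factor hθ
  set s : F := q.eval 0 * MvPolynomial.aeval c g with hs
  have hs0 : s ≠ 0 := mul_ne_zero hq0 hg
  refine ⟨n, fun t i => Polynomial.C s⁻¹ * θ g * θ (a (t, i)), fun t j => θ (b (t, j)),
    fun t l => θ (u (t, l)), fun i j l => Polynomial.C s⁻¹ * q * θ (w (i, j, l)),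
    fun i j l => ⟨?_, ?_⟩⟩
  · have h1 := congrArg θ (key i j l)
    rw [map_sum, map_mul, hq] at h1
    simp only [map_mul] at h1
    have h2 : ∀ t, Polynomial.C s⁻¹ * θ g * θ (a (t, i)) * θ (b (t, j)) * θ (u (t, l)) =
        Polynomial.C s⁻¹ * (θ g * θ (a (t, i)) * θ (b (t, j)) * θ (u (t, l))) := fun t => by
      ring
    simp only [h2]
    rw [← Finset.mul_sum, h1]
    ring
  · rw [Polynomial.eval_mul, Polynomial.eval_mul, Polynomial.eval_C, hθ0, (hw (i, j, l)).2]
    have h3 : s⁻¹ * q.eval 0 * (MvPolynomial.aeval c g * T i j l) =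
        (s⁻¹ * s) * T i j l := by rw [hs]; ring
    rw [h3, inv_mul_cancel₀ hs0, one_mul]

/-- **Lower bound for the number of terms.** -/
theorem omega_of_border [Infinite F] {m r : ℕ} (hm : 1 ≤ m) (c : σ → F)
    (A B C : Fin r → Fin m × Fin m → Rt F σ) {s : F} (hs : s ≠ 0)
    (h : ∀ i j l, Vl c (∑ t, A t i * B t j * C t l)
      (s * if i.2 = j.1 ∧ l.1 = i.1 ∧ l.2 = j.2 then 1 else 0)) :
    (m : ℝ) ^ Pool.Agent.H826R3.SM.omegaMM F ≤ r := by
  obtain ⟨n, A', B', C', P, hP⟩ := border c A B C _ h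
  refine Pool.Agent.H826R3.SM.AD.omega_le (h := n) hm
    ⟨fun t i j => A' t (i, j), fun t j k => B' t (j, k),
      fun t k l => Polynomial.C s⁻¹ * C' t (l, k),
      fun i j j' k k' l => Polynomial.C s⁻¹ * P (i, j) (j', k) (l, k'), ?_⟩
  intro i j j' k k' l
  obtain ⟨h1, h2⟩ := hP (i, j) (j', k) (l, k')
  constructor
  · have h3 : ∀ t, A' t (i, j) * B' t (j', k) * (Polynomial.C s⁻¹ * C' t (l, k')) =
        Polynomial.C s⁻¹ * (A' t (i, j) * B' t (j', k) * C' t (l, k')) := fun t => by ring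
    simp only [h3]
    rw [← Finset.mul_sum, h1]
    ring
  · rw [Polynomial.eval_mul, Polynomial.eval_C, h2, ← mul_assoc, inv_mul_cancel₀ hs, one_mul]
    by_cases h4 : j = j' <;> by_cases h5 : k = k' <;> by_cases h6 : l = i <;>
      simp [h4, h5, h6, eq_comm]

end

end Pool.Agent.Q225.Dich
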