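import Pool.Agent.Q225.Dich.Tri

set_option autoImplicit false
set_option linter.unusedSectionVars false

/-!
# Affine expressions
-/

namespace Pool.Agent.Q225.Dich

open Matrix

section

variable {F V A B : Type} [Field F] [Ring A] [Algebra F A] [Ring B] [Algebra F B]

theorem df_map (g : A →ₐ[F] B) {a c : V → A} (e : Ex F V) (ha : e.Ok a) (hc : e.Ok c)
    (b : V → A) :
    df (fun v => g (a v)) (fun v => g (c v)) e (fun v => g (b v)) = g (df a c e b) := by
  induction e with
  | const c => exact (map_zero g).symm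
  | var v => rfl
  | add x y hx hy => simp only [df, hx ha.1 hc.1, hy ha.2 hc.2, map_add]
  | mul x y hx hy =>
    simp only [df, hx ha.1 hc.1, hy ha.2 hc.2, map_add, map_mul, (x.map g ha.1).2,
      (y.map g hc.2).2]
  | inv x hx =>
    simp only [df, hx ha.1 hc.1, map_neg, map_mul, (x.map g ha.1).2, (x.map g hc.1).2,
      inverse_map g ha.2, inverse_map g hc.2]

/-- block diagonal matrices -/
def blk (F L ι κ : Type) [Field F] [CommRing L] [Algebra F L] [Fintype ι] [DecidableEq ι]
    [Fintype κ] [DecidableEq κ] :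
    Matrix ι ι L × Matrix κ κ L →ₐ[F] Matrix (ι ⊕ κ) (ι ⊕ κ) L where
  toFun p := fromBlocks p.1 0 0 p.2
  map_one' := fromBlocks_one
  map_mul' p q := by
    rw [fromBlocks_multiply]
    simp
  map_zero' := fromBlocks_zero
  map_add' p q := by
    rw [fromBlocks_add]
    simp
  commutes' c := by
    rw [Matrix.algebraMap_eq_diagonal]
    ext (i | i) (j | j)
    · simp [Matrix.algebraMap_eq_diagonal, Matrix.diagonal_apply]
    · simp
    · simp
    · simp [Matrix.algebraMap_eq_diagonal, Matrix.diagonal_apply]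

theorem blk_apply {F L ι κ : Type} [Field F] [CommRing L] [Algebra F L] [Fintype ι]
    [DecidableEq ι] [Fintype κ] [DecidableEq κ] (p : Matrix ι ι L × Matrix κ κ L) :
    blk F L ι κ p = fromBlocks p.1 0 0 p.2 := rfl

theorem blk_inj {F L ι κ : Type} [Field F] [CommRing L] [Algebra F L] [Fintype ι]
    [DecidableEq ι] [Fintype κ] [DecidableEq κ] : Function.Injective (blk F L ι κ) := by
  intro p q h
  have h1 := (fromBlocks_inj.1 h)
  exact Prod.ext h1.1 h1.2.2.2

theorem mat_center {n : ℕ} (x : Matrix (Fin n) (Fin n) F) (h : ∀ s, s * x = x * s) :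
    ∃ c : F, x = algebraMap F _ c := by
  obtain ⟨c, hc⟩ := Matrix.mem_range_scalar_iff_commute_single'.2
    (fun i j => (h (Matrix.single i j 1) : Commute (Matrix.single i j 1) x))
  exact ⟨c, hc.symm⟩

theorem algebraMap_inj {n : ℕ} (hn : 1 ≤ n) {c d : F}
    (h : algebraMap F (Matrix (Fin n) (Fin n) F) c = algebraMap F _ d) : c = d := by
  have := congrFun (congrFun h ⟨0, hn⟩) ⟨0, hn⟩
  simpa [Matrix.algebraMap_eq_diagonal] using this

/-- **If the second difference-differentials vanish for all sizes then the expression is affine.** -/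
theorem affine_all [Fintype V] [DecidableEq V] {e : Ex F V}
    (H : ∀ n, Flat F V (Matrix (Fin n) (Fin n) F) e) :
    ∃ (μ : F) (lam : V → F), ∀ (n : ℕ) (X : V → Matrix (Fin n) (Fin n) F), e.Ok X →
      e.ev X = algebraMap F _ μ + ∑ v, algebraMap F _ (lam v) * X v := by
  by_cases hD : ∃ n, 1 ≤ n ∧ ∃ a : V → Matrix (Fin n) (Fin n) F, e.Ok a
  · obtain ⟨n₀, hn₀, a₀, h₀⟩ := hD
    obtain ⟨μ, lam, h1, h2⟩ := (H n₀).affine mat_center a₀ h₀
    refine ⟨μ, lam, fun n X hX => ?_⟩
    rcases Nat.eq_zero_or_pos n with hn | hn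
    · subst hn
      exact Subsingleton.elim _ _
    obtain ⟨μ', lam', h1', h2'⟩ := (H n).affine mat_center X hX
    let r : Matrix (Fin n₀ ⊕ Fin n) (Fin n₀ ⊕ Fin n) F ≃ₐ[F]
        Matrix (Fin (n₀ + n)) (Fin (n₀ + n)) F := Matrix.reindexAlgEquiv F F finSumFinEquiv
    let g : Matrix (Fin n₀) (Fin n₀) F × Matrix (Fin n) (Fin n) F →ₐ[F]
        Matrix (Fin (n₀ + n)) (Fin (n₀ + n)) F := r.toAlgHom.comp (blk F F (Fin n₀) (Fin n))
    have hg : Function.Injective g := r.injective.comp (blk_inj (F := F))
    obtain ⟨h3, h4⟩ := Ex.ok_prod e h₀ hX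
    obtain ⟨h5, h6⟩ := Ex.map g e h3
    obtain ⟨μ'', lam'', h1'', h2''⟩ := (H (n₀ + n)).affine mat_center _ h5
    have hl : ∀ v, lam'' v = lam v ∧ lam'' v = lam' v := by
      intro v
      have h7 := h1'' _ _ h5 h5 v
      have e1 : (Pi.single v 1 : V → Matrix (Fin (n₀ + n)) (Fin (n₀ + n)) F) =
          fun w => g ((Pi.single v 1 : V → Matrix (Fin n₀) (Fin n₀) F) w,
            (Pi.single v 1 : V → Matrix (Fin n) (Fin n) F) w) := by
        funext w
        by_cases hw : w = v
        · subst hw
          simp only [Pi.single_eq_same]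
          exact (map_one g).symm
        · simp only [Pi.single_eq_of_ne hw]
          exact (map_zero g).symm
      rw [e1, df_map g e h3 h3, ← g.commutes] at h7
      have h8 := hg h7
      have h9 := df_map (AlgHom.fst F _ _) e h3 h3 (fun w =>
        ((Pi.single v 1 : V → Matrix (Fin n₀) (Fin n₀) F) w,
            (Pi.single v 1 : V → Matrix (Fin n) (Fin n) F) w))
      have h10 := df_map (AlgHom.snd F _ _) e h3 h3 (fun w =>
        ((Pi.single v 1 : V → Matrix (Fin n₀) (Fin n₀) F) w,
            (Pi.single v 1 : V → Matrix (Fin n) (Fin n) F) w))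
      rw [h8] at h9 h10
      constructor
      · refine algebraMap_inj hn₀ ?_
        rw [← h1 a₀ a₀ h₀ h₀ v]
        exact h9.symm
      · refine algebraMap_inj hn ?_
        rw [← h1' X X hX hX v]
        exact h10.symm
    have h7 := h2'' _ h5
    rw [h6, h4, ← g.commutes] at h7
    have h8 : ∑ v, algebraMap F _ (lam'' v) * g (a₀ v, X v) =
        g (∑ v, algebraMap F _ (lam'' v) * (a₀ v, X v)) := by
      rw [map_sum]
      refine Finset.sum_congr rfl fun v _ => ?_
      rw [map_mul, g.commutes]
    rw [h8, ← map_add] at h7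
    have h9 := hg h7
    have h10 := congrArg Prod.fst h9
    have h11 := congrArg Prod.snd h9
    simp only [Prod.fst_add, Prod.fst_sum, Prod.fst_mul, Prod.snd_add, Prod.snd_sum,
      Prod.snd_mul, Prod.algebraMap_apply] at h10 h11
    have hμ : μ'' = μ := by
      refine algebraMap_inj hn₀ ?_
      have h12 := h2 a₀ h₀
      rw [h10] at h12
      have h13 : ∑ v, algebraMap F (Matrix (Fin n₀) (Fin n₀) F) (lam'' v) * a₀ v =
          ∑ v, algebraMap F _ (lam v) * a₀ v :=
        Finset.sum_congr rfl fun v _ => by rw [(hl v).1]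
      rw [h13] at h12
      exact add_right_cancel h12
    rw [h11, hμ]
    congr 1
    exact Finset.sum_congr rfl fun v _ => by rw [(hl v).1]
  · push Not at hD
    refine ⟨0, fun _ => 0, fun n X hX => ?_⟩
    rcases Nat.eq_zero_or_pos n with hn | hn
    · subst hn
      exact Subsingleton.elim _ _
    · exact absurd hX (hD n hn X)

end

end Pool.Agent.Q225.Dich
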