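import Pool.Agent.Q225.Dich.Kron

set_option autoImplicit false
set_option linter.unusedSectionVars false

/-!
# The special point and the special directions
-/

namespace Pool.Agent.Q225.Dich

open Matrix TrivSqZeroExt
open scoped Kronecker

section

variable {F V T κ ρ : Type} [Field F] [CommRing T] [Algebra F T] [Fintype κ] [DecidableEq κ]
  [Fintype ρ] [DecidableEq ρ]

/-- block matrices -/
noncomputable def Bl (F T κ ρ : Type) [Field F] [CommRing T] [Algebra F T] [Fintype κ]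
    [DecidableEq κ] [Fintype ρ] [DecidableEq ρ] :
    Matrix (Fin 3) (Fin 3) (Matrix κ κ T) × Matrix ρ ρ T →ₐ[F]
      Matrix ((Fin 3 × κ) ⊕ ρ) ((Fin 3 × κ) ⊕ ρ) T :=
  (blk F T (Fin 3 × κ) ρ).comp
    (AlgHom.prodMap (Matrix.compAlgEquiv (Fin 3) κ T F).toAlgHom (AlgHom.id F _))

theorem Bl_ll (M : Matrix (Fin 3) (Fin 3) (Matrix κ κ T)) (w : Matrix ρ ρ T) (i j : Fin 3)
    (s t : κ) : Bl F T κ ρ (M, w) (.inl (i, s)) (.inl (j, t)) = M i j s t := rfl

theorem Bl_lr (M : Matrix (Fin 3) (Fin 3) (Matrix κ κ T)) (w : Matrix ρ ρ T) (i : Fin 3)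
    (s : κ) (t : ρ) : Bl F T κ ρ (M, w) (.inl (i, s)) (.inr t) = 0 := rfl

theorem Bl_rl (M : Matrix (Fin 3) (Fin 3) (Matrix κ κ T)) (w : Matrix ρ ρ T) (i : Fin 3)
    (s : κ) (t : ρ) : Bl F T κ ρ (M, w) (.inr t) (.inl (i, s)) = 0 := rfl

theorem Bl_rr (M : Matrix (Fin 3) (Fin 3) (Matrix κ κ T)) (w : Matrix ρ ρ T) (s t : ρ) :
    Bl F T κ ρ (M, w) (.inr s) (.inr t) = w s t := rfl

/-- constants -/
noncomputable def i0 (F T : Type) [Field F] [CommRing T] [Algebra F T] :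
    T →ₐ[F] DualNumber (DualNumber T) :=
  (TrivSqZeroExt.inlAlgHom F (DualNumber T) (DualNumber T)).comp
    (TrivSqZeroExt.inlAlgHom F T T)

theorem i0_apply (t : T) : i0 F T t = inl (inl t) := rfl

/-- the first infinitesimal -/
def e1 (T : Type) [CommRing T] : DualNumber (DualNumber T) := inl (inr 1)

/-- the second infinitesimal -/
def e2 (T : Type) [CommRing T] : DualNumber (DualNumber T) := inr (inl 1)

theorem i0_e12 (t : T) : (i0 F T t * (e1 T * e2 T)).snd.snd = t := by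
  simp [i0_apply, e1, e2]

theorem tri_comb {R S : Type} [Zero R] [Zero S] (f : R → R → R → S) (h0 : f 0 0 0 = 0)
    (a b z c b' d a₁ b₁ z₁ c₁ b₁' d₁ a₂ b₂ z₂ c₂ b₂' d₂ : R) (i j : Fin 3) :
    f (tri a b z c b' d i j) (tri a₁ b₁ z₁ c₁ b₁' d₁ i j) (tri a₂ b₂ z₂ c₂ b₂' d₂ i j) =
      tri (f a a₁ a₂) (f b b₁ b₂) (f z z₁ z₂) (f c c₁ c₂) (f b' b₁' b₂') (f d d₁ d₂) i j := by
  fin_cases i <;> fin_cases j <;> first | rfl | exact h0

theorem tri_app {R : Type} [Zero R] (a b z c b' d : Matrix κ κ R) (i j : Fin 3) (p q : κ) :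
    tri a b z c b' d i j p q =
      tri (a p q) (b p q) (z p q) (c p q) (b' p q) (d p q) i j := by
  fin_cases i <;> fin_cases j <;> rfl

variable {k m : Type} [Fintype k] [DecidableEq k] [Fintype m] [DecidableEq m]

/-- the special point -/
noncomputable def ptC (F : Type) [Field F] {V T k m ρ : Type} [CommRing T] [Algebra F T]
    [Fintype k] [DecidableEq k] [Fintype m] [DecidableEq m] [Fintype ρ] [DecidableEq ρ]
    (a c d : V → Matrix k k T) (w : V → Matrix ρ ρ T) (v : V) :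
    Matrix ((Fin 3 × (k × m)) ⊕ ρ) ((Fin 3 × (k × m)) ⊕ ρ) T :=
  Bl F T (k × m) ρ (tri (a v ⊗ₖ (1 : Matrix m m T)) 0 0 (c v ⊗ₖ (1 : Matrix m m T)) 0
    (d v ⊗ₖ (1 : Matrix m m T)), w v)

theorem jm_block (a c d b b' : V → Matrix k k T) (w : V → Matrix ρ ρ T) (H H' : Matrix m m T)
    (x y : V → Matrix ((Fin 3 × (k × m)) ⊕ ρ) ((Fin 3 × (k × m)) ⊕ ρ) F)
    (hx : ∀ v, (x v).map (algebraMap F T) = Bl F T (k × m) ρ (tri 0 (b v ⊗ₖ H) 0 0 0 0, 0))
    (hy : ∀ v, (y v).map (algebraMap F T) = Bl F T (k × m) ρ (tri 0 0 0 0 (b' v ⊗ₖ H') 0, 0)) :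
    jm (ptC F a c d w) x y = fun v => Bl F (DualNumber (DualNumber T)) (k × m) ρ
      (tri ((i0 F T).mapMatrix (a v) ⊗ₖ (1 : Matrix m m (DualNumber (DualNumber T))))
        ((i0 F T).mapMatrix (b v) ⊗ₖ (e1 T • (i0 F T).mapMatrix H)) 0
        ((i0 F T).mapMatrix (c v) ⊗ₖ (1 : Matrix m m (DualNumber (DualNumber T))))
        ((i0 F T).mapMatrix (b' v) ⊗ₖ (e2 T • (i0 F T).mapMatrix H'))
        ((i0 F T).mapMatrix (d v) ⊗ₖ (1 : Matrix m m (DualNumber (DualNumber T)))),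
        (i0 F T).mapMatrix (w v)) := by
  funext v
  refine Matrix.ext fun p q => ?_
  have h1 := congrFun (congrFun (hx v) p) q
  have h2 := congrFun (congrFun (hy v) p) q
  rw [Matrix.map_apply] at h1 h2
  show jt (ptC F a c d w v p q) (x v p q) (y v p q) = _
  rw [jt, h1, h2]
  rcases p with ⟨i, p⟩ | p <;> rcases q with ⟨j, q⟩ | q
  · rw [ptC, Bl_ll, Bl_ll, Bl_ll, Bl_ll, tri_app, tri_app, tri_app, tri_app]
    refine (tri_comb (fun s t u : T => (inl (inl s + inr t) + inr (inl u) :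
      DualNumber (DualNumber T))) (by simp) _ _ _ _ _ _ _ _ _ _ _ _ _ _ _ _ _ _ i j).trans ?_
    have hz : (0 : Matrix (k × m) (k × m) T) p q = 0 := rfl
    have hz' : (0 : Matrix (k × m) (k × m) (DualNumber (DualNumber T))) p q = 0 := rfl
    have hone : (1 : Matrix m m (DualNumber (DualNumber T))) p.2 q.2 =
        i0 F T ((1 : Matrix m m T) p.2 q.2) := by
      rw [Matrix.one_apply, Matrix.one_apply]
      split_ifs <;> simp
    rw [hz, hz']
    simp only [kroneckerMap_apply, hone, Matrix.smul_apply, AlgHom.mapMatrix_apply,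
      Matrix.map_apply, smul_eq_mul, i0_apply, e1, e2]
    congr 1
    · refine TrivSqZeroExt.ext (TrivSqZeroExt.ext ?_ ?_) (TrivSqZeroExt.ext ?_ ?_) <;> simp
    · refine TrivSqZeroExt.ext (TrivSqZeroExt.ext ?_ ?_) (TrivSqZeroExt.ext ?_ ?_) <;> simp
    · refine TrivSqZeroExt.ext (TrivSqZeroExt.ext ?_ ?_) (TrivSqZeroExt.ext ?_ ?_) <;> simp
    · refine TrivSqZeroExt.ext (TrivSqZeroExt.ext ?_ ?_) (TrivSqZeroExt.ext ?_ ?_) <;> simp
    · refine TrivSqZeroExt.ext (TrivSqZeroExt.ext ?_ ?_) (TrivSqZeroExt.ext ?_ ?_) <;> simp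
    · refine TrivSqZeroExt.ext (TrivSqZeroExt.ext ?_ ?_) (TrivSqZeroExt.ext ?_ ?_) <;> simp
  · simp [ptC, Bl_lr]
  · simp [ptC, Bl_rl]
  · simp [ptC, Bl_rr, i0_apply]

theorem block_abs {J : Type} [CommRing J] [Algebra F J] (j : T →ₐ[F] J) (ε ε' : J)
    (e : Ex F V) {a c d : V → Matrix k k T} (b b' : V → Matrix k k T)
    {w : V → Matrix ρ ρ T} (ha : e.Ok a) (hc : e.Ok c) (hd : e.Ok d) (hw : e.Ok w)
    (H H' : Matrix m m T) (p q : k × m) :
    e.ev (fun v => Bl F J (k × m) ρ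
      (tri (j.mapMatrix (a v) ⊗ₖ (1 : Matrix m m J))
        (j.mapMatrix (b v) ⊗ₖ (ε • j.mapMatrix H)) 0
        (j.mapMatrix (c v) ⊗ₖ (1 : Matrix m m J))
        (j.mapMatrix (b' v) ⊗ₖ (ε' • j.mapMatrix H'))
        (j.mapMatrix (d v) ⊗ₖ (1 : Matrix m m J)), j.mapMatrix (w v)))
      (.inl (0, p)) (.inl (2, q)) =
      j (dg a c d e b b' p.1 q.1 * (H * H') p.2 q.2) * (ε * ε') := by
  have ha' := Ex.map j.mapMatrix e ha
  have hc' := Ex.map j.mapMatrix e hc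
  have hd' := Ex.map j.mapMatrix e hd
  have hw' := Ex.map j.mapMatrix e hw
  have ha'' := Ex.map (krHom F J k m) e ha'.1
  have hc'' := Ex.map (krHom F J k m) e hc'.1
  have hd'' := Ex.map (krHom F J k m) e hd'.1
  obtain ⟨h1, h2⟩ := tri_ev
    (fun v => j.mapMatrix (b v) ⊗ₖ (ε • j.mapMatrix H))
    (fun v => j.mapMatrix (b' v) ⊗ₖ (ε' • j.mapMatrix H')) (0 : V → _) e
    ha''.1 hc''.1 hd''.1
  obtain ⟨h3, h4⟩ := Ex.ok_prod e h1 hw'.1
  obtain ⟨h5, h6⟩ := Ex.map (Bl F J (k × m) ρ) e h3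
  rw [h4] at h6
  refine (congrFun (congrFun h6 _) _).trans ?_
  rw [Bl_ll, h2, df_zero, zero_add]
  have h8 := dg_krHom (m := m) e ha'.1 hc'.1 hd'.1 (fun v => j.mapMatrix (b v))
    (fun v => j.mapMatrix (b' v)) (ε • j.mapMatrix H) (ε' • j.mapMatrix H')
  rw [dg_map j.mapMatrix e ha hc hd] at h8
  rw [h8]
  have h9 : (ε • j.mapMatrix H) * (ε' • j.mapMatrix H') = (ε * ε') • j.mapMatrix (H * H') := by
    rw [map_mul, Matrix.smul_mul, Matrix.mul_smul, smul_smul]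
  rw [h9]
  show (j.mapMatrix (dg a c d e b b') ⊗ₖ ((ε * ε') • j.mapMatrix (H * H'))) p q = _
  rw [kroneckerMap_apply, Matrix.smul_apply, AlgHom.mapMatrix_apply, AlgHom.mapMatrix_apply,
    Matrix.map_apply, Matrix.map_apply, smul_eq_mul, mul_comm (ε * ε'), ← mul_assoc, ← map_mul]

/-- **The mixed second derivative at the special point in the special directions.** -/
theorem evJ_block (e : Ex F V) {a c d : V → Matrix k k T} (b b' : V → Matrix k k T)
    {w : V → Matrix ρ ρ T} (ha : e.Ok a) (hc : e.Ok c) (hd : e.Ok d) (hw : e.Ok w)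
    (H H' : Matrix m m T)
    (x y : V → Matrix ((Fin 3 × (k × m)) ⊕ ρ) ((Fin 3 × (k × m)) ⊕ ρ) F)
    (hx : ∀ v, (x v).map (algebraMap F T) = Bl F T (k × m) ρ (tri 0 (b v ⊗ₖ H) 0 0 0 0, 0))
    (hy : ∀ v, (y v).map (algebraMap F T) = Bl F T (k × m) ρ (tri 0 0 0 0 (b' v ⊗ₖ H') 0, 0))
    (p q : k × m) :
    (evJ e (ptC F a c d w) x y (.inl (0, p)) (.inl (2, q))).snd.snd =
      dg a c d e b b' p.1 q.1 * (H * H') p.2 q.2 := by
  have h := block_abs (i0 F T) (e1 T) (e2 T) e b b' ha hc hd hw H H' p q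
  rw [← jm_block a c d b b' w H H' x y hx hy] at h
  rw [evJ, h, i0_e12]

end

end Pool.Agent.Q225.Dich
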