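import Mathlib

set_option autoImplicit false
set_option linter.unusedSectionVars false

/-!
# Rational expressions in noncommuting variables
-/

namespace Pool.Agent.Q225.Dich

/-- Expressions in the variables `V` with constants from `F`: sums, products and inverses. -/
inductive Ex (F V : Type) : Type
  | const (c : F) : Ex F V
  | var (v : V) : Ex F V
  | add (x y : Ex F V) : Ex F V
  | mul (x y : Ex F V) : Ex F V
  | inv (x : Ex F V) : Ex F V

section

variable {F V A B : Type} [Field F] [Ring A] [Algebra F A] [Ring B] [Algebra F B]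

/-- The value of an expression at the elements `X v` of an `F`-algebra; the inverse of an element
which is not invertible is understood to be zero. -/
noncomputable def Ex.ev (X : V → A) : Ex F V → A
  | .const c => algebraMap F A c
  | .var v => X v
  | .add x y => x.ev X + y.ev X
  | .mul x y => x.ev X * y.ev X
  | .inv x => Ring.inverse (x.ev X)

/-- The expression is defined at `X`: whenever an inverse is taken in it, the element is
invertible. -/
def Ex.Ok (X : V → A) : Ex F V → Prop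
  | .const _ => True
  | .var _ => True
  | .add x y => x.Ok X ∧ y.Ok X
  | .mul x y => x.Ok X ∧ y.Ok X
  | .inv x => x.Ok X ∧ IsUnit (x.ev X)

theorem inverse_map (g : A →ₐ[F] B) {x : A} (hx : IsUnit x) :
    Ring.inverse (g x) = g (Ring.inverse x) := by
  obtain ⟨u, rfl⟩ := hx
  rw [Ring.inverse_unit]
  have : g (u : A) = ((Units.map (g : A →* B) u : Bˣ) : B) := rfl
  rw [this, Ring.inverse_unit]
  rfl

/-- Expressions are compatible with homomorphisms. -/
theorem Ex.map (g : A →ₐ[F] B) {X : V → A} (e : Ex F V) (h : e.Ok X) :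
    e.Ok (fun v => g (X v)) ∧ e.ev (fun v => g (X v)) = g (e.ev X) := by
  induction e with
  | const c => exact ⟨trivial, (g.commutes c).symm⟩
  | var v => exact ⟨trivial, rfl⟩
  | add x y hx hy =>
    obtain ⟨h1, h2⟩ := hx h.1
    obtain ⟨h3, h4⟩ := hy h.2
    exact ⟨⟨h1, h3⟩, by simp only [Ex.ev, h2, h4, map_add]⟩
  | mul x y hx hy =>
    obtain ⟨h1, h2⟩ := hx h.1
    obtain ⟨h3, h4⟩ := hy h.2
    exact ⟨⟨h1, h3⟩, by simp only [Ex.ev, h2, h4, map_mul]⟩
  | inv x hx =>
    obtain ⟨h1, h2⟩ := hx h.1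
    refine ⟨⟨h1, ?_⟩, ?_⟩
    · rw [h2]
      exact h.2.map g
    · simp only [Ex.ev, h2]
      exact inverse_map g h.2

/-- Expressions which are defined after a local homomorphism are defined before. -/
theorem Ex.lift (g : A →ₐ[F] B) (hg : ∀ x : A, IsUnit (g x) → IsUnit x) {X : V → A} (e : Ex F V)
    (h : e.Ok (fun v => g (X v))) : e.Ok X := by
  induction e with
  | const c => trivial
  | var v => trivial
  | add x y hx hy => exact ⟨hx h.1, hy h.2⟩
  | mul x y hx hy => exact ⟨hx h.1, hy h.2⟩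
  | inv x hx =>
    have h1 := hx h.1
    refine ⟨h1, hg _ ?_⟩
    rw [← (x.map g h1).2]
    exact h.2

theorem Ex.ok_prod {X : V → A} {Y : V → B} (e : Ex F V) (h1 : e.Ok X) (h2 : e.Ok Y) :
    e.Ok (fun v => (X v, Y v)) ∧ e.ev (fun v => (X v, Y v)) = (e.ev X, e.ev Y) := by
  induction e with
  | const c => exact ⟨trivial, rfl⟩
  | var v => exact ⟨trivial, rfl⟩
  | add x y hx hy =>
    obtain ⟨h3, h4⟩ := hx h1.1 h2.1
    obtain ⟨h5, h6⟩ := hy h1.2 h2.2
    exact ⟨⟨h3, h5⟩, by simp only [Ex.ev, h4, h6, Prod.mk_add_mk]⟩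
  | mul x y hx hy =>
    obtain ⟨h3, h4⟩ := hx h1.1 h2.1
    obtain ⟨h5, h6⟩ := hy h1.2 h2.2
    exact ⟨⟨h3, h5⟩, by simp only [Ex.ev, h4, h6, Prod.mk_mul_mk]⟩
  | inv x hx =>
    obtain ⟨h3, h4⟩ := hx h1.1 h2.1
    refine ⟨⟨h3, ?_⟩, ?_⟩
    · rw [h4]
      exact Prod.isUnit_iff.2 ⟨h1.2, h2.2⟩
    · simp only [Ex.ev, h4]
      obtain ⟨u, hu⟩ := h1.2
      obtain ⟨w, hw⟩ := h2.2
      rw [← hu, ← hw, Ring.inverse_unit, Ring.inverse_unit]
      have : ((u : A), (w : B)) = ((MulEquiv.prodUnits.symm (u, w) : (A × B)ˣ) : A × B) := rfl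
      rw [this, Ring.inverse_unit]
      rfl

end

end Pool.Agent.Q225.Dich
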