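import Pool.Agent.Q225.Dich.Aff
import Pool.Agent.Q225.Add.InvDefs
import Pool.Agent.Q225.Add.Core

set_option autoImplicit false
set_option linter.unusedSectionVars false

/-!
# Values of second derivatives at special points
-/

namespace Pool.Agent.Q225.Dich

open Matrix Pool.Agent.Q225.Add Pool.Agent.W956.KF Pool.Agent.H53R3 DualNumber TrivSqZeroExt

section loc

variable {F σ : Type} [Field F]

/-- the polynomials which vanish at `c` -/
noncomputable abbrev Pc (c : σ → F) : Ideal (MvPolynomial σ F) :=
  RingHom.ker (MvPolynomial.aeval c : MvPolynomial σ F →ₐ[F] F)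

instance (c : σ → F) : (Pc c).IsPrime := RingHom.ker_isPrime _

/-- the local ring of `c` -/
abbrev Sc (c : σ → F) : Type := Localization.AtPrime (Pc c)

theorem mem_primeCompl {c : σ → F} {g : MvPolynomial σ F} :
    g ∈ (Pc c).primeCompl ↔ MvPolynomial.aeval c g ≠ 0 := by
  rw [Ideal.mem_primeCompl_iff]
  rfl

/-- the embedding into the field of rational functions -/
noncomputable def io (c : σ → F) : Sc c →ₐ[F] Rt F σ :=
  IsLocalization.liftAlgHom (M := (Pc c).primeCompl)
    (f := IsScalarTower.toAlgHom F (MvPolynomial σ F) (Rt F σ)) (fun y => by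
      refine IsUnit.mk0 _ fun h => ?_
      have h1 : (y : MvPolynomial σ F) = 0 :=
        (IsFractionRing.injective (MvPolynomial σ F) (Rt F σ)) (h.trans (map_zero _).symm)
      have h2 := mem_primeCompl.1 y.2
      rw [h1, map_zero] at h2
      exact h2 rfl)

/-- the value at `c` -/
noncomputable def pr (c : σ → F) : Sc c →ₐ[F] F :=
  IsLocalization.liftAlgHom (M := (Pc c).primeCompl)
    (f := MvPolynomial.aeval c) (fun y => IsUnit.mk0 _ (mem_primeCompl.1 y.2))

theorem io_alg (c : σ → F) (a : MvPolynomial σ F) :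
    io c (algebraMap _ (Sc c) a) = algebraMap _ (Rt F σ) a :=
  IsLocalization.lift_eq _ a

theorem pr_alg (c : σ → F) (a : MvPolynomial σ F) :
    pr c (algebraMap _ (Sc c) a) = MvPolynomial.aeval c a :=
  IsLocalization.lift_eq _ a

theorem pr_local (c : σ → F) (x : Sc c) (h : IsUnit (pr c x)) : IsUnit x := by
  obtain ⟨a, s, rfl⟩ := IsLocalization.exists_mk'_eq (Pc c).primeCompl x
  have h1 : IsLocalization.mk' (Sc c) a s * algebraMap _ (Sc c) (s : MvPolynomial σ F) =
      algebraMap _ (Sc c) a := IsLocalization.mk'_spec _ _ _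
  have h2 := congrArg (pr c) h1
  rw [map_mul, pr_alg, pr_alg] at h2
  have h3 : MvPolynomial.aeval c a ≠ 0 := by
    rw [← h2]
    exact mul_ne_zero h.ne_zero (mem_primeCompl.1 s.2)
  have h4 : IsUnit (algebraMap _ (Sc c) a) :=
    IsLocalization.map_units (Sc c) (⟨a, mem_primeCompl.2 h3⟩ : (Pc c).primeCompl)
  rw [← h1] at h4
  exact isUnit_of_mul_isUnit_left h4

/-- the rational function `f` is defined at `c` and has the value `v` there -/
def Vl (c : σ → F) (f : Rt F σ) (v : F) : Prop := ∃ s : Sc c, io c s = f ∧ pr c s = v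

theorem Vl.frac {c : σ → F} {f : Rt F σ} {v : F} (h : Vl c f v) :
    ∃ a g : MvPolynomial σ F, MvPolynomial.aeval c g ≠ 0 ∧
      f * algebraMap _ (Rt F σ) g = algebraMap _ (Rt F σ) a ∧
      v * MvPolynomial.aeval c g = MvPolynomial.aeval c a := by
  obtain ⟨x, rfl, rfl⟩ := h
  obtain ⟨a, s, rfl⟩ := IsLocalization.exists_mk'_eq (Pc c).primeCompl x
  have h1 : IsLocalization.mk' (Sc c) a s * algebraMap _ (Sc c) (s : MvPolynomial σ F) =
      algebraMap _ (Sc c) a := IsLocalization.mk'_spec _ _ _
  refine ⟨a, s, mem_primeCompl.1 s.2, ?_, ?_⟩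
  · have := congrArg (io c) h1
    rwa [map_mul, io_alg, io_alg] at this
  · have := congrArg (pr c) h1
    rwa [map_mul, pr_alg, pr_alg] at this

end loc

section dual

variable {F S T U : Type} [Field F] [CommRing S] [Algebra F S] [CommRing T] [Algebra F T]

/-- dual numbers are functorial -/
noncomputable def dmap (f : S →ₐ[F] T) : DualNumber S →ₐ[F] DualNumber T where
  toFun x := inl (f x.fst) + inr (f x.snd)
  map_one' := by
    ext <;> simp
  map_mul' x y := by
    ext
    · simp
    · simp
  map_zero' := by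
    ext <;> simp
  map_add' x y := by
    ext <;> simp
  commutes' r := by
    ext
    · simp [TrivSqZeroExt.algebraMap_eq_inl']
    · simp [TrivSqZeroExt.algebraMap_eq_inl']

@[simp] theorem dmap_fst (f : S →ₐ[F] T) (x : DualNumber S) : (dmap f x).fst = f x.fst := by
  show (inl (f x.fst) + inr (f x.snd) : DualNumber T).fst = _
  simp

@[simp] theorem dmap_snd (f : S →ₐ[F] T) (x : DualNumber S) : (dmap f x).snd = f x.snd := by
  show (inl (f x.fst) + inr (f x.snd) : DualNumber T).snd = _
  simp

theorem dmap_local (f : S →ₐ[F] T) (hf : ∀ x, IsUnit (f x) → IsUnit x) (x : DualNumber S)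
    (h : IsUnit (dmap f x)) : IsUnit x := by
  rw [TrivSqZeroExt.isUnit_iff_isUnit_fst] at h ⊢
  rw [dmap_fst] at h
  exact hf _ h

/-- the first component -/
noncomputable def dfst (F S : Type) [Field F] [CommRing S] [Algebra F S] :
    DualNumber S →ₐ[F] S := TrivSqZeroExt.fstHom F S S

theorem dfst_apply (x : DualNumber S) : dfst F S x = x.fst := rfl

theorem dfst_local (x : DualNumber S) (h : IsUnit (dfst F S x)) : IsUnit x :=
  TrivSqZeroExt.isUnit_iff_isUnit_fst.2 h

theorem mat_local {ι : Type} [Fintype ι] [DecidableEq ι] (f : S →ₐ[F] T)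
    (hf : ∀ x, IsUnit (f x) → IsUnit x) (M : Matrix ι ι S) (h : IsUnit (f.mapMatrix M)) :
    IsUnit M := by
  rw [Matrix.isUnit_iff_isUnit_det] at h ⊢
  rw [← AlgHom.map_det] at h
  exact hf _ h

/-- the Taylor homomorphism of a derivation -/
noncomputable def tay {K : Type} [Field K] [Algebra F K] (D : K → K) (hD : IsDer D)
    (hc : ∀ c : F, D (algebraMap F K c) = 0) : K →ₐ[F] DualNumber K where
  toFun x := inl x + inr (D x)
  map_one' := by
    ext <;> simp [hD.one]
  map_mul' x y := by
    ext
    · simp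
    · simp [hD.mul]
      ring
  map_zero' := by
    ext <;> simp [hD.zero]
  map_add' x y := by
    ext <;> simp [hD.add]
  commutes' r := by
    ext
    · simp [TrivSqZeroExt.algebraMap_eq_inl']
    · simp [TrivSqZeroExt.algebraMap_eq_inl', hc]

theorem tay_fst {K : Type} [Field K] [Algebra F K] (D : K → K) (hD : IsDer D)
    (hc : ∀ c : F, D (algebraMap F K c) = 0) (x : K) : (tay D hD hc x).fst = x := by
  show (inl x + inr (D x) : DualNumber K).fst = _
  simp

theorem tay_snd {K : Type} [Field K] [Algebra F K] (D : K → K) (hD : IsDer D)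
    (hc : ∀ c : F, D (algebraMap F K c) = 0) (x : K) : (tay D hD hc x).snd = D x := by
  show (inl x + inr (D x) : DualNumber K).snd = _
  simp

end dual

end Pool.Agent.Q225.Dich
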