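import Pool.Agent.Q225.Dich.Jet

set_option autoImplicit false
set_option linter.unusedSectionVars false

/-!
# Second derivatives of expressions at special points
-/

namespace Pool.Agent.Q225.Dich

open Matrix Pool.Agent.Q225.Add Pool.Agent.W956.KF Pool.Agent.H53R3 DualNumber TrivSqZeroExt

section

variable {F : Type} [Field F]

/-- the two-parameter jet `s + x ε + y ε'` -/
noncomputable def jt {S : Type} [CommRing S] [Algebra F S] (s : S) (x y : F) :
    DualNumber (DualNumber S) :=
  inl (inl s + inr (algebraMap F S x)) + inr (inl (algebraMap F S y))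

theorem jt_map {S T : Type} [CommRing S] [Algebra F S] [CommRing T] [Algebra F T] (f : S →ₐ[F] T)
    (s : S) (x y : F) : dmap (dmap f) (jt s x y) = jt (f s) x y := by
  refine TrivSqZeroExt.ext ?_ ?_
  · rw [dmap_fst]
    refine TrivSqZeroExt.ext ?_ ?_
    · rw [dmap_fst]
      simp [jt]
    · rw [dmap_snd]
      simp [jt]
  · rw [dmap_snd]
    refine TrivSqZeroExt.ext ?_ ?_
    · rw [dmap_fst]
      simp [jt]
    · rw [dmap_snd]
      simp [jt]

variable {σ : Type} [Fintype σ]

/-- directional derivatives -/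
noncomputable def dd (D : σ → Rt F σ → Rt F σ) (x : σ → F) (f : Rt F σ) : Rt F σ :=
  ∑ v, algebraMap F (Rt F σ) (x v) * D v f

theorem dd_der {D : σ → Rt F σ → Rt F σ} (hD : ∀ v, IsDer (D v)) (x : σ → F) :
    IsDer (dd D x) := by
  refine ⟨fun a b => ?_, fun a b => ?_⟩
  · simp only [dd, (hD _).add, mul_add, Finset.sum_add_distrib]
  · simp only [dd, (hD _).mul, mul_add, Finset.sum_add_distrib, Finset.mul_sum, Finset.sum_mul]
    congr 1
    · exact Finset.sum_congr rfl fun v _ => by ring
    · exact Finset.sum_congr rfl fun v _ => by ring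

theorem dd_const {D : σ → Rt F σ → Rt F σ} (hc : ∀ v (c : F), D v (algebraMap F _ c) = 0)
    (x : σ → F) (c : F) : dd D x (algebraMap F _ c) = 0 := by
  simp [dd, hc]

theorem dd_gz [DecidableEq σ] {D : σ → Rt F σ → Rt F σ}
    (hv : ∀ v j, D v (gz F σ j) = if j = v then 1 else 0) (x : σ → F) (j : σ) :
    dd D x (gz F σ j) = algebraMap F _ (x j) := by
  simp [dd, hv]

theorem tau_gz [DecidableEq σ] {D : σ → Rt F σ → Rt F σ} (hD : ∀ v, IsDer (D v))
    (hc : ∀ v (c : F), D v (algebraMap F _ c) = 0)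
    (hv : ∀ v j, D v (gz F σ j) = if j = v then 1 else 0) (x y : σ → F) (v : σ) :
    dmap (tay (dd D x) (dd_der hD x) (dd_const hc x))
      (tay (dd D y) (dd_der hD y) (dd_const hc y) (gz F σ v)) = jt (gz F σ v) (x v) (y v) := by
  refine TrivSqZeroExt.ext ?_ ?_
  · rw [dmap_fst, tay_fst]
    refine TrivSqZeroExt.ext ?_ ?_
    · rw [tay_fst]
      simp [jt]
    · rw [tay_snd, dd_gz hv]
      simp [jt, Algebra.algebraMap_eq_smul_one]
  · rw [dmap_snd, tay_snd, dd_gz hv]
    refine TrivSqZeroExt.ext ?_ ?_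
    · rw [tay_fst]
      simp [jt]
    · rw [tay_snd, dd_const hc]
      simp [jt]

end

/-- the constant term of a two-parameter jet -/
noncomputable def pp (F S : Type) [Field F] [CommRing S] [Algebra F S] :
    DualNumber (DualNumber S) →ₐ[F] S :=
  (dfst F S).comp (dfst F (DualNumber S))

theorem pp_apply {F S : Type} [Field F] [CommRing S] [Algebra F S]
    (x : DualNumber (DualNumber S)) : pp F S x = x.fst.fst := rfl

theorem pp_local {F S : Type} [Field F] [CommRing S] [Algebra F S]
    (x : DualNumber (DualNumber S)) (h : IsUnit (pp F S x)) : IsUnit x := by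
  rw [pp_apply] at h
  exact TrivSqZeroExt.isUnit_iff_isUnit_fst.2 (TrivSqZeroExt.isUnit_iff_isUnit_fst.2 h)

section abstract

variable {F S K V ι : Type} [Field F] [CommRing S] [Algebra F S] [Field K] [Algebra F K]
  [Fintype ι] [DecidableEq ι]

/-- matrices of jets -/
noncomputable def jm {S : Type} [CommRing S] [Algebra F S] (s : V → Matrix ι ι S)
    (x y : V → Matrix ι ι F) (v : V) : Matrix ι ι (DualNumber (DualNumber S)) :=
  Matrix.of fun i j => jt (s v i j) (x v i j) (y v i j)

theorem jm_map {S T : Type} [CommRing S] [Algebra F S] [CommRing T] [Algebra F T] (f : S →ₐ[F] T)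
    (s : V → Matrix ι ι S) (x y : V → Matrix ι ι F) :
    (fun v => (dmap (dmap f)).mapMatrix (jm s x y v)) = jm (fun v => f.mapMatrix (s v)) x y := by
  funext v
  refine Matrix.ext fun i j => ?_
  rw [AlgHom.mapMatrix_apply, Matrix.map_apply, jm, jm, Matrix.of_apply, Matrix.of_apply, jt_map]
  rfl

theorem jm_fst {S : Type} [CommRing S] [Algebra F S] (s : V → Matrix ι ι S)
    (x y : V → Matrix ι ι F) :
    (fun v => (pp F S).mapMatrix (jm s x y v)) = s := by
  funext v
  refine Matrix.ext fun i j => ?_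
  rw [AlgHom.mapMatrix_apply, Matrix.map_apply, jm, Matrix.of_apply, pp_apply]
  simp [jt]

/-- an expression is defined at a tuple of matrices of jets -/
def OkJ {T : Type} [CommRing T] [Algebra F T] (e : Ex F V) (C : V → Matrix ι ι T)
    (x y : V → Matrix ι ι F) : Prop := e.Ok (jm C x y)

/-- the value of an expression at a tuple of matrices of jets -/
noncomputable def evJ {T : Type} [CommRing T] [Algebra F T] (e : Ex F V) (C : V → Matrix ι ι T)
    (x y : V → Matrix ι ι F) : Matrix ι ι (DualNumber (DualNumber T)) := e.ev (jm C x y)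

theorem okJ_of {T : Type} [CommRing T] [Algebra F T] {e : Ex F V} {C : V → Matrix ι ι T}
    (h : e.Ok C) (x y : V → Matrix ι ι F) : OkJ e C x y := by
  refine Ex.lift (pp F T).mapMatrix (fun M => mat_local (pp F T) pp_local M) e ?_
  rw [jm_fst]
  exact h

theorem jet_aux {T : Type} [CommRing T] [Algebra F T] (π : S →ₐ[F] T)
    (hπ : ∀ x, IsUnit (π x) → IsUnit x) (κ : S →ₐ[F] K)
    (s : V → Matrix ι ι S) (C : V → Matrix ι ι T) (hs : (fun v => π.mapMatrix (s v)) = C)
    (e : Ex F V) (hC : e.Ok C) :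
    e.Ok (fun v => κ.mapMatrix (s v)) ∧
    ∀ (x y : V → Matrix ι ι F) (τ : K →ₐ[F] DualNumber (DualNumber K)),
      (fun v => τ.mapMatrix (κ.mapMatrix (s v))) = jm (fun v => κ.mapMatrix (s v)) x y →
      ∀ i j, ∃ z : S,
        κ z = (τ (e.ev (fun v => κ.mapMatrix (s v)) i j)).snd.snd ∧
        π z = (evJ e C x y i j).snd.snd := by
  have okS : e.Ok s := by
    refine Ex.lift π.mapMatrix (fun M => mat_local π hπ M) e ?_
    rw [hs]
    exact hC
  have okZ := Ex.map κ.mapMatrix e okS
  refine ⟨okZ.1, fun x y τ hτ i j => ?_⟩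
  have okZJ : e.Ok (jm s x y) := okJ_of okS x y
  have h5 := (Ex.map (dmap (dmap π)).mapMatrix e okZJ).2
  rw [jm_map, hs] at h5
  have h6 := (Ex.map (dmap (dmap κ)).mapMatrix e okZJ).2
  rw [jm_map, ← hτ, (Ex.map τ.mapMatrix e okZ.1).2] at h6
  have h9 := congrFun (congrFun h6 i) j
  rw [AlgHom.mapMatrix_apply, Matrix.map_apply, AlgHom.mapMatrix_apply, Matrix.map_apply] at h9
  refine ⟨(e.ev (jm s x y) i j).snd.snd, ?_, ?_⟩
  · rw [h9, dmap_snd, dmap_snd]
  · rw [evJ, h5, AlgHom.mapMatrix_apply, Matrix.map_apply, dmap_snd, dmap_snd]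

end abstract

section

variable {F : Type} [Field F] {V ι : Type} [Fintype V] [DecidableEq V] [Fintype ι]
  [DecidableEq ι]

/-- the generic matrices -/
noncomputable def genM (F V ι : Type) [Field F] (v : V) : Matrix ι ι (Rt F (V × ι × ι)) :=
  Matrix.of fun i j => gz F (V × ι × ι) (v, i, j)

/-- the entries of a tuple of matrices -/
def flat (C : V → Matrix ι ι F) : V × ι × ι → F := fun t => C t.1 t.2.1 t.2.2

/-- **Second derivatives of expressions.** -/
theorem jet_value
    {D : V × ι × ι → Rt F (V × ι × ι) → Rt F (V × ι × ι)} (hD : ∀ v, IsDer (D v))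
    (hc : ∀ v (c : F), D v (algebraMap F _ c) = 0)
    (hv : ∀ v j, D v (gz F _ j) = if j = v then 1 else 0)
    (e : Ex F V) (C : V → Matrix ι ι F) (hC : e.Ok C) :
    e.Ok (genM F V ι) ∧
    ∀ x y : V → Matrix ι ι F,
      ∀ i j, Vl (flat C) (dd D (flat x) (dd D (flat y) (e.ev (genM F V ι) i j)))
        (evJ e C x y i j).snd.snd := by
  let s : V → Matrix ι ι (Sc (flat C)) := fun v => Matrix.of fun i j =>
    algebraMap (MvPolynomial (V × ι × ι) F) (Sc (flat C)) (MvPolynomial.X (v, i, j))
  have hs : (fun v => (pr (flat C)).mapMatrix (s v)) = C := by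
    funext v
    refine Matrix.ext fun i j => ?_
    rw [AlgHom.mapMatrix_apply, Matrix.map_apply]
    simp only [s, Matrix.of_apply, pr_alg, MvPolynomial.aeval_X, flat]
  have hκ : (fun v => (io (flat C)).mapMatrix (s v)) = genM F V ι := by
    funext v
    refine Matrix.ext fun i j => ?_
    rw [AlgHom.mapMatrix_apply, Matrix.map_apply]
    simp only [s, genM, Matrix.of_apply, io_alg, gz]
  obtain ⟨h1, h2⟩ := jet_aux (pr (flat C)) (pr_local _) (io (flat C)) s C hs e hC
  rw [hκ] at h1 h2
  refine ⟨h1, fun x y i j => ?_⟩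
  have hτ : (fun v => ((dmap (tay (dd D (flat x)) (dd_der hD _) (dd_const hc _))).comp
      (tay (dd D (flat y)) (dd_der hD _) (dd_const hc _))).mapMatrix
        ((io (flat C)).mapMatrix (s v))) = jm (genM F V ι) x y := by
    funext v
    rw [congrFun hκ v]
    refine Matrix.ext fun i j => ?_
    rw [AlgHom.mapMatrix_apply, Matrix.map_apply, jm, genM, Matrix.of_apply, Matrix.of_apply]
    exact tau_gz hD hc hv (flat x) (flat y) (v, i, j)
  obtain ⟨z, hz1, hz2⟩ := h2 x y _ hτ i j
  refine ⟨z, ?_, hz2⟩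
  rw [hz1]
  show (dmap (tay (dd D (flat x)) (dd_der hD _) (dd_const hc _))
      (tay (dd D (flat y)) (dd_der hD _) (dd_const hc _) _)).snd.snd = _
  rw [dmap_snd, tay_snd, tay_snd]

end

end Pool.Agent.Q225.Dich
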