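import Pool.Agent.Q225.Dich.JetVal

set_option autoImplicit false
set_option linter.unusedSectionVars false

/-!
# Expressions at block triangular matrices with tensor factors
-/

namespace Pool.Agent.Q225.Dich

open Matrix
open scoped Kronecker

section

variable {F V A B : Type} [Field F] [Ring A] [Algebra F A] [Ring B] [Algebra F B]

theorem dg_map (g : A →ₐ[F] B) {a c d : V → A} (e : Ex F V) (ha : e.Ok a) (hc : e.Ok c)
    (hd : e.Ok d) (b b' : V → A) :
    dg (fun v => g (a v)) (fun v => g (c v)) (fun v => g (d v)) e (fun v => g (b v))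
      (fun v => g (b' v)) = g (dg a c d e b b') := by
  induction e with
  | const c => exact (map_zero g).symm
  | var v => exact (map_zero g).symm
  | add x y hx hy => simp only [dg, hx ha.1 hc.1 hd.1, hy ha.2 hc.2 hd.2, map_add]
  | mul x y hx hy =>
    simp only [dg, hx ha.1 hc.1 hd.1, hy ha.2 hc.2 hd.2, map_add, map_mul, (x.map g ha.1).2,
      (y.map g hd.2).2, df_map g x ha.1 hc.1, df_map g y hc.2 hd.2]
  | inv x hx =>
    simp only [dg, hx ha.1 hc.1 hd.1, map_sub, map_mul, (x.map g ha.1).2, (x.map g hc.1).2,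
      (x.map g hd.1).2, inverse_map g ha.2, inverse_map g hc.2, inverse_map g hd.2,
      df_map g x ha.1 hc.1, df_map g x hc.1 hd.1]

end

section kron

variable {F V J k m : Type} [Field F] [CommRing J] [Algebra F J] [Fintype k] [DecidableEq k]
  [Fintype m] [DecidableEq m]

/-- the homomorphism `A ↦ A ⊗ 1` -/
noncomputable def krHom (F J k m : Type) [Field F] [CommRing J] [Algebra F J] [Fintype k]
    [DecidableEq k] [Fintype m] [DecidableEq m] :
    Matrix k k J →ₐ[F] Matrix (k × m) (k × m) J where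
  toFun A := A ⊗ₖ (1 : Matrix m m J)
  map_one' := one_kronecker_one
  map_mul' A B := by rw [← mul_kronecker_mul, one_mul]
  map_zero' := zero_kronecker _
  map_add' A B := add_kronecker _ _ _
  commutes' c := by
    ext ⟨i, p⟩ ⟨j, q⟩
    rw [Matrix.algebraMap_eq_diagonal, Matrix.algebraMap_eq_diagonal, kroneckerMap_apply]
    simp only [Matrix.diagonal_apply, Matrix.one_apply, Prod.mk.injEq, mul_ite, mul_one,
      mul_zero]
    by_cases h1 : i = j <;> by_cases h2 : p = q <;> simp [h1, h2]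

theorem krHom_apply (A : Matrix k k J) : krHom F J k m A = A ⊗ₖ (1 : Matrix m m J) := rfl

theorem df_kron {a c : V → Matrix k k J} (e : Ex F V) (ha : e.Ok a) (hc : e.Ok c)
    (b : V → Matrix k k J) (H : Matrix m m J) :
    df (fun v => a v ⊗ₖ (1 : Matrix m m J)) (fun v => c v ⊗ₖ (1 : Matrix m m J)) e
      (fun v => b v ⊗ₖ H) = df a c e b ⊗ₖ H := by
  induction e with
  | const c => exact (zero_kronecker _).symm
  | var v => rfl
  | add x y hx hy => simp only [df, hx ha.1 hc.1, hy ha.2 hc.2, add_kronecker]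
  | mul x y hx hy =>
    simp only [df, hx ha.1 hc.1, hy ha.2 hc.2, add_kronecker]
    have h1 : x.ev (fun v => a v ⊗ₖ (1 : Matrix m m J)) = x.ev a ⊗ₖ 1 :=
      (x.map (krHom F J k m) ha.1).2
    have h2 : y.ev (fun v => c v ⊗ₖ (1 : Matrix m m J)) = y.ev c ⊗ₖ 1 :=
      (y.map (krHom F J k m) hc.2).2
    rw [h1, h2, ← mul_kronecker_mul, ← mul_kronecker_mul, one_mul, mul_one]
  | inv x hx =>
    simp only [df, hx ha.1 hc.1]
    have h1 : Ring.inverse (x.ev (fun v => a v ⊗ₖ (1 : Matrix m m J))) =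
        Ring.inverse (x.ev a) ⊗ₖ 1 := by
      rw [← krHom_apply (F := F), ← inverse_map _ ha.2, ← (x.map (krHom F J k m) ha.1).2]
      rfl
    have h2 : Ring.inverse (x.ev (fun v => c v ⊗ₖ (1 : Matrix m m J))) =
        Ring.inverse (x.ev c) ⊗ₖ 1 := by
      rw [← krHom_apply (F := F), ← inverse_map _ hc.2, ← (x.map (krHom F J k m) hc.1).2]
      rfl
    rw [h1, h2, ← mul_kronecker_mul, ← mul_kronecker_mul, one_mul, mul_one]
    ext i j
    simp

theorem dg_kron {a c d : V → Matrix k k J} (e : Ex F V) (ha : e.Ok a) (hc : e.Ok c)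
    (hd : e.Ok d) (b b' : V → Matrix k k J) (H H' : Matrix m m J) :
    dg (fun v => a v ⊗ₖ (1 : Matrix m m J)) (fun v => c v ⊗ₖ (1 : Matrix m m J))
      (fun v => d v ⊗ₖ (1 : Matrix m m J)) e (fun v => b v ⊗ₖ H) (fun v => b' v ⊗ₖ H') =
      dg a c d e b b' ⊗ₖ (H * H') := by
  induction e with
  | const c => exact (zero_kronecker _).symm
  | var v => exact (zero_kronecker _).symm
  | add x y hx hy => simp only [dg, hx ha.1 hc.1 hd.1, hy ha.2 hc.2 hd.2, add_kronecker]
  | mul x y hx hy =>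
    simp only [dg, hx ha.1 hc.1 hd.1, hy ha.2 hc.2 hd.2, add_kronecker,
      df_kron x ha.1 hc.1, df_kron y hc.2 hd.2]
    have h1 : x.ev (fun v => a v ⊗ₖ (1 : Matrix m m J)) = x.ev a ⊗ₖ 1 :=
      (x.map (krHom F J k m) ha.1).2
    have h2 : y.ev (fun v => d v ⊗ₖ (1 : Matrix m m J)) = y.ev d ⊗ₖ 1 :=
      (y.map (krHom F J k m) hd.2).2
    rw [h1, h2, ← mul_kronecker_mul, ← mul_kronecker_mul, ← mul_kronecker_mul, one_mul, mul_one]
  | inv x hx =>
    simp only [dg, hx ha.1 hc.1 hd.1, df_kron x ha.1 hc.1, df_kron x hc.1 hd.1]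
    have h1 : Ring.inverse (x.ev (fun v => a v ⊗ₖ (1 : Matrix m m J))) =
        Ring.inverse (x.ev a) ⊗ₖ 1 := by
      rw [← krHom_apply (F := F), ← inverse_map _ ha.2, ← (x.map (krHom F J k m) ha.1).2]
      rfl
    have h2 : Ring.inverse (x.ev (fun v => c v ⊗ₖ (1 : Matrix m m J))) =
        Ring.inverse (x.ev c) ⊗ₖ 1 := by
      rw [← krHom_apply (F := F), ← inverse_map _ hc.2, ← (x.map (krHom F J k m) hc.1).2]
      rfl
    have h3 : Ring.inverse (x.ev (fun v => d v ⊗ₖ (1 : Matrix m m J))) =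
        Ring.inverse (x.ev d) ⊗ₖ 1 := by
      rw [← krHom_apply (F := F), ← inverse_map _ hd.2, ← (x.map (krHom F J k m) hd.1).2]
      rfl
    rw [h1, h2, h3]
    simp only [← mul_kronecker_mul, one_mul, mul_one]
    ext i j
    simp only [kroneckerMap_apply, Matrix.sub_apply, sub_mul]

theorem dg_krHom {a c d : V → Matrix k k J} (e : Ex F V) (ha : e.Ok a) (hc : e.Ok c)
    (hd : e.Ok d) (b b' : V → Matrix k k J) (H H' : Matrix m m J) :
    dg (fun v => krHom F J k m (a v)) (fun v => krHom F J k m (c v))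
      (fun v => krHom F J k m (d v)) e (fun v => b v ⊗ₖ H) (fun v => b' v ⊗ₖ H') =
      dg a c d e b b' ⊗ₖ (H * H') := dg_kron e ha hc hd b b' H H'

end kron

end Pool.Agent.Q225.Dich
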