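import Pool.Agent.Q225.Dich.JetVal
import Pool.Agent.Q225.Add.ThreeGen

set_option autoImplicit false
set_option linter.unusedSectionVars false

/-!
# Second derivatives and the number of multiplications and divisions
-/

namespace Pool.Agent.Q225.Dich

open Pool.Agent.Q225.Add Pool.Agent.W956.KF Pool.Agent.H53R3

/-- The elements of `Z` can be computed with `L` multiplications and divisions if linear
combinations over `F` are free: `h 0, …, h (L - 1)` are the results of the multiplications and
divisions. -/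
def CompM (F : Type) [Field F] (V : Type) (Z : Set (Rt F V)) (L : ℕ) : Prop :=
  ∃ h : Fin L → Rt F V,
    (∀ t, ∃ u v, u ∈ Submodule.span F (Given F V ∪ {z | ∃ t' < t, z = h t'}) ∧
      v ∈ Submodule.span F (Given F V ∪ {z | ∃ t' < t, z = h t'}) ∧
      (h t = u * v ∨ h t = u / v)) ∧
    ∀ z ∈ Z, z ∈ Submodule.span F (Given F V ∪ Set.range h)

section

variable {F : Type} [Field F] {V : Type} [DecidableEq V] {D : V → Rt F V → Rt F V}
  (hD : ∀ x, IsDer (D x)) (hc : ∀ x (c : F), D x (algebraMap F _ c) = 0)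
  (hv : ∀ x j, D x (gz F V j) = if j = x then 1 else 0)

/-- the second derivatives outside of the diagonal -/
noncomputable def arr (D : V → Rt F V → Rt F V) (z : Rt F V) : V × V → Rt F V := fun p =>
  if p.1 = p.2 then 0 else D p.1 (D p.2 z)

/-- products outside of the diagonal -/
noncomputable def ro (P Q : V → Rt F V) : V × V → Rt F V := fun p => if p.1 = p.2 then 0 else P p.1 * Q p.2

include hD hc hv

theorem arr_add (x y : Rt F V) : arr D (x + y) = arr D x + arr D y := by
  funext p
  simp only [arr, Pi.add_apply, (hD p.1).add, (hD p.2).add]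
  split_ifs <;> simp

theorem der_smul (v : V) (c : F) (x : Rt F V) : D v (c • x) = c • D v x := by
  rw [Algebra.smul_def, Algebra.smul_def, (hD v).mul, hc, zero_mul, zero_add]

theorem arr_smul (c : F) (x : Rt F V) : arr D (c • x) = algebraMap F (Rt F V) c • arr D x := by
  funext p
  simp only [arr, Pi.smul_apply, der_smul hD hc hv]
  split_ifs
  · simp
  · rw [Algebra.smul_def, smul_eq_mul]

theorem arr_mul (x y : Rt F V) : arr D (x * y) = x • arr D y + y • arr D x +
    ro (fun v => D v x) (fun v => D v y) + ro (fun v => D v y) (fun v => D v x) := by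
  funext p
  simp only [arr, ro, Pi.add_apply, Pi.smul_apply, smul_eq_mul]
  split_ifs with h
  · simp
  · rw [(hD p.2).mul, (hD p.1).add, (hD p.1).mul, (hD p.1).mul]
    ring

theorem arr_zero : arr D (0 : Rt F V) = 0 := by
  funext p
  simp only [arr, (hD p.2).zero, (hD p.1).zero, ite_self, Pi.zero_apply]

theorem arr_given {z : Rt F V} (hz : z ∈ Given F V) : arr D z = 0 := by
  funext p
  simp only [arr, Pi.zero_apply]
  split_ifs with h
  · rfl
  · rcases hz with ⟨c, rfl⟩ | ⟨v, rfl⟩
    · rw [hc, (hD p.1).zero]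
    · rw [hv]
      split_ifs
      · exact (hD p.1).one
      · exact (hD p.1).zero

theorem arr_span {W : Submodule (Rt F V) (V × V → Rt F V)} {S : Set (Rt F V)}
    (hS : ∀ z ∈ S, arr D z ∈ W) {z : Rt F V} (hz : z ∈ Submodule.span F S) : arr D z ∈ W := by
  induction hz using Submodule.span_induction with
  | mem x hx => exact hS x hx
  | zero => rw [arr_zero hD hc hv]; exact W.zero_mem
  | add x y _ _ hx hy => rw [arr_add hD hc hv]; exact W.add_mem hx hy
  | smul c x _ hx => rw [arr_smul hD hc hv]; exact W.smul_mem _ hx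

/-- second derivatives and multiplications, several outputs -/
theorem two_compM {Z : Set (Rt F V)} {L : ℕ} (h : CompM F V Z L) :
    ∃ P Q : Fin L × Fin 2 → V → Rt F V, ∀ z ∈ Z, ∃ c : Fin L × Fin 2 → Rt F V,
      ∀ v w, v ≠ w → D v (D w z) = ∑ t, c t * P t v * Q t w := by
  obtain ⟨h, hrun, hout⟩ := h
  have hrun' : ∀ t, ∃ u v p q : Rt F V,
      u ∈ Submodule.span F (Given F V ∪ {z | ∃ t' < t, z = h t'}) ∧
      v ∈ Submodule.span F (Given F V ∪ {z | ∃ t' < t, z = h t'}) ∧
      ((h t = u * v ∧ p = u ∧ q = v) ∨ (h t = u / v ∧ p = h t ∧ q = v)) := by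
    intro t
    obtain ⟨u, v, hu, hv', h1 | h1⟩ := hrun t
    · exact ⟨u, v, u, v, hu, hv', Or.inl ⟨h1, rfl, rfl⟩⟩
    · exact ⟨u, v, h t, v, hu, hv', Or.inr ⟨h1, rfl, rfl⟩⟩
  choose u v p q hu hv' huv using hrun'
  let P : Fin L × Fin 2 → V → Rt F V := fun t x => if t.2 = 0 then D x (p t.1) else D x (q t.1)
  let Q : Fin L × Fin 2 → V → Rt F V := fun t x => if t.2 = 0 then D x (q t.1) else D x (p t.1)
  let W : Submodule (Rt F V) (V × V → Rt F V) :=
    Submodule.span (Rt F V) (Set.range fun t => ro (P t) (Q t))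
  have hW : ∀ t, ro (fun x => D x (p t)) (fun x => D x (q t)) ∈ W ∧
      ro (fun x => D x (q t)) (fun x => D x (p t)) ∈ W := by
    intro t
    constructor
    · exact Submodule.subset_span ⟨(t, 0), rfl⟩
    · exact Submodule.subset_span ⟨(t, 1), rfl⟩
  have hmem : ∀ t : Fin L, arr D (h t) ∈ W := by
    intro t
    induction t using WellFoundedLT.induction with
    | ind t ih =>
      have hS : ∀ z ∈ Given F V ∪ {z | ∃ t' < t, z = h t'}, arr D z ∈ W := by
        rintro z (hz | ⟨t', ht', rfl⟩)
        · rw [arr_given hD hc hv hz]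
          exact W.zero_mem
        · exact ih t' ht'
      have h1 := arr_span hD hc hv hS (hu t)
      have h2 := arr_span hD hc hv hS (hv' t)
      rcases huv t with ⟨h3, h4, h5⟩ | ⟨h3, h4, h5⟩
      · rw [h3, arr_mul hD hc hv]
        have h6 := hW t
        rw [h4, h5] at h6
        exact W.add_mem (W.add_mem (W.add_mem (W.smul_mem _ h2) (W.smul_mem _ h1)) h6.1) h6.2
      · rcases eq_or_ne (v t) 0 with h0 | h0
        · rw [h3, h0, div_zero, arr_zero hD hc hv]
          exact W.zero_mem
        · have h6 : u t = h t * v t := by rw [h3, div_mul_cancel₀ _ h0]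
          have h7 := arr_mul hD hc hv (h t) (v t)
          rw [← h6] at h7
          have h8 := hW t
          rw [h4, h5] at h8
          have h9 : arr D (h t) = (v t)⁻¹ • (arr D (u t) - h t • arr D (v t) -
              ro (fun x => D x (h t)) (fun x => D x (v t)) -
              ro (fun x => D x (v t)) (fun x => D x (h t))) := by
            rw [h7]
            funext z
            simp only [Pi.smul_apply, Pi.sub_apply, Pi.add_apply, smul_eq_mul]
            field_simp
            ring
          rw [h9]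
          exact W.smul_mem _ (W.sub_mem (W.sub_mem (W.sub_mem h1 (W.smul_mem _ h2)) h8.1) h8.2)
  refine ⟨P, Q, fun z hz => ?_⟩
  have h1 : arr D z ∈ W := by
    refine arr_span hD hc hv ?_ (hout z hz)
    rintro z (hz | ⟨t, rfl⟩)
    · rw [arr_given hD hc hv hz]
      exact W.zero_mem
    · exact hmem t
  obtain ⟨c, hc'⟩ := (Submodule.mem_span_range_iff_exists_fun (Rt F V)).1 h1
  refine ⟨c, fun x y hxy => ?_⟩
  have h2 := congrFun hc' (x, y)
  simp only [arr, if_neg hxy] at h2
  rw [← h2, Finset.sum_apply]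
  refine Finset.sum_congr rfl fun t _ => ?_
  simp only [Pi.smul_apply, ro, if_neg hxy, smul_eq_mul, mul_assoc]

end

section dir

variable {F : Type} [Field F] {σ : Type} [Fintype σ] [DecidableEq σ] {D : σ → Rt F σ → Rt F σ}
  (hD : ∀ x, IsDer (D x)) (hc : ∀ x (c : F), D x (algebraMap F _ c) = 0)
  (hv : ∀ x j, D x (gz F σ j) = if j = x then 1 else 0)

include hD hc hv

/-- from partial derivatives to directional derivatives -/
theorem dir_of_part {τ : Type} [Fintype τ] (g : σ → Rt F σ) (P Q : τ → σ → Rt F σ)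
    (c : τ → Rt F σ) (h : ∀ v w, v ≠ w → D v (g w) = ∑ t, c t * P t v * Q t w)
    (x y : σ → F) (hxy : ∀ v, x v * y v = 0) :
    dd D x (∑ w, algebraMap F _ (y w) * g w) =
      ∑ t, (∑ v, algebraMap F _ (x v) * P t v) * (∑ w, algebraMap F _ (y w) * Q t w) * c t := by
  have h1 : dd D x (∑ w, algebraMap F _ (y w) * g w) =
      ∑ v, ∑ w, algebraMap F (Rt F σ) (x v) * algebraMap F _ (y w) * D v (g w) := by
    unfold dd
    refine Finset.sum_congr rfl fun v _ => ?_
    have h2 : D v (∑ w, algebraMap F _ (y w) * g w) = ∑ w, algebraMap F _ (y w) * D v (g w) := by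
      let f : Rt F σ →+ Rt F σ := ⟨⟨D v, (hD v).zero⟩, (hD v).add⟩
      have h3 : f (∑ w, algebraMap F _ (y w) * g w) = ∑ w, f (algebraMap F _ (y w) * g w) :=
        map_sum f _ _
      refine h3.trans (Finset.sum_congr rfl fun w _ => ?_)
      show D v _ = _
      rw [(hD v).mul, hc, zero_mul, zero_add]
    rw [h2, Finset.mul_sum]
    exact Finset.sum_congr rfl fun w _ => by rw [mul_assoc]
  rw [h1]
  have h2 : ∀ v w, algebraMap F (Rt F σ) (x v) * algebraMap F _ (y w) * D v (g w) =
      algebraMap F (Rt F σ) (x v) * algebraMap F _ (y w) * ∑ t, c t * P t v * Q t w := by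
    intro v w
    by_cases hvw : v = w
    · subst hvw
      rw [← map_mul, hxy, map_zero, zero_mul, zero_mul]
    · rw [h v w hvw]
  simp only [h2]
  calc ∑ v, ∑ w, algebraMap F (Rt F σ) (x v) * algebraMap F _ (y w) * ∑ t, c t * P t v * Q t w
      = ∑ v, ∑ w, ∑ t, (algebraMap F (Rt F σ) (x v) * P t v) *
          (algebraMap F (Rt F σ) (y w) * Q t w) * c t := by
        refine Finset.sum_congr rfl fun v _ => Finset.sum_congr rfl fun w _ => ?_
        rw [Finset.mul_sum]
        exact Finset.sum_congr rfl fun t _ => by ring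
    _ = ∑ v, ∑ t, ∑ w, (algebraMap F (Rt F σ) (x v) * P t v) *
          (algebraMap F (Rt F σ) (y w) * Q t w) * c t :=
        Finset.sum_congr rfl fun v _ => Finset.sum_comm
    _ = ∑ t, ∑ v, ∑ w, (algebraMap F (Rt F σ) (x v) * P t v) *
          (algebraMap F (Rt F σ) (y w) * Q t w) * c t := Finset.sum_comm
    _ = ∑ t, (∑ v, algebraMap F _ (x v) * P t v) * (∑ w, algebraMap F _ (y w) * Q t w) *
          c t := by
        refine Finset.sum_congr rfl fun t _ => ?_
        rw [Finset.sum_mul_sum, Finset.sum_mul]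
        exact Finset.sum_congr rfl fun v _ => by rw [Finset.sum_mul]

end dir

end Pool.Agent.Q225.Dich
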