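import Pool.Agent.Q225.Dich.Block
import Pool.Agent.Q225.Dich.Border
import Pool.Agent.Q225.Dich.Meas

set_option autoImplicit false
set_option linter.unusedSectionVars false

/-!
# Lower bounds for nonaffine expressions
-/

namespace Pool.Agent.Q225.Dich

open Matrix Pool.Agent.Q225.Add Pool.Agent.W956.KF Pool.Agent.H53R3
open scoped Kronecker

section

variable {F V T ι κ : Type} [Field F] [CommRing T] [Algebra F T] [Fintype ι] [DecidableEq ι]
  [Fintype κ] [DecidableEq κ]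

theorem evJ_submatrix (ε : ι ≃ κ) (e : Ex F V) (C : V → Matrix κ κ T) (hC : e.Ok C)
    (x y : V → Matrix κ κ F) (i j : ι) :
    evJ e (fun v => (C v).submatrix ε ε) (fun v => (x v).submatrix ε ε)
      (fun v => (y v).submatrix ε ε) i j = evJ e C x y (ε i) (ε j) := by
  have h1 := okJ_of hC x y
  have h2 := (Ex.map (Matrix.reindexAlgEquiv F (DualNumber (DualNumber T)) ε.symm).toAlgHom
    e h1).2
  exact congrFun (congrFun h2 i) j

theorem ok_submatrix (ε : ι ≃ κ) (e : Ex F V) (C : V → Matrix κ κ T) (hC : e.Ok C) :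
    e.Ok (fun v => (C v).submatrix ε ε) :=
  (Ex.map (Matrix.reindexAlgEquiv F T ε.symm).toAlgHom e hC).1

end

section

variable {F V : Type} [Field F] [Fintype V] [DecidableEq V] {k m n₀ : ℕ}

/-- the index set of the blocks -/
abbrev Ix (k m n₀ : ℕ) : Type := (Fin 3 × (Fin k × Fin m)) ⊕ Fin n₀

/-- the directions of the first kind -/
noncomputable def dX (m n₀ : ℕ) (b : V → Matrix (Fin k) (Fin k) F) (i : Fin m × Fin m) (v : V) :
    Matrix (Ix k m n₀) (Ix k m n₀) F :=
  Bl F F (Fin k × Fin m) (Fin n₀) (tri 0 (b v ⊗ₖ Matrix.single i.1 i.2 1) 0 0 0 0, 0)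

/-- the directions of the second kind -/
noncomputable def dY (m n₀ : ℕ) (b : V → Matrix (Fin k) (Fin k) F) (i : Fin m × Fin m) (v : V) :
    Matrix (Ix k m n₀) (Ix k m n₀) F :=
  Bl F F (Fin k × Fin m) (Fin n₀) (tri 0 0 0 0 (b v ⊗ₖ Matrix.single i.1 i.2 1) 0, 0)

theorem dX_dY (b b' : V → Matrix (Fin k) (Fin k) F) (i j : Fin m × Fin m) (v : V)
    (p q : Ix k m n₀) : dX m n₀ b i v p q * dY m n₀ b' j v p q = 0 := by
  simp only [dX, dY]
  rcases p with ⟨x, p⟩ | p <;> rcases q with ⟨y, q⟩ | q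
  · rw [Bl_ll, Bl_ll, tri_app, tri_app]
    have hz : (0 : Matrix (Fin k × Fin m) (Fin k × Fin m) F) p q = 0 := rfl
    rw [hz]
    refine (tri_comb (fun s t u : F => s * t) (by simp) _ _ _ _ _ _ _ _ _ _ _ _
      (0 : F) 0 0 0 0 0 x y).trans ?_
    simp only [mul_zero, zero_mul]
    fin_cases x <;> fin_cases y <;> rfl
  · rw [Bl_lr, zero_mul]
  · rw [Bl_rl, zero_mul]
  · rw [Bl_rr, Bl_rr]
    simp

theorem ptC_ok (e : Ex F V) {a c d : V → Matrix (Fin k) (Fin k) F}
    {w : V → Matrix (Fin n₀) (Fin n₀) F} (ha : e.Ok a) (hc : e.Ok c) (hd : e.Ok d)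
    (hw : e.Ok w) : e.Ok (ptC (m := Fin m) F a c d w) := by
  have ha' := (Ex.map (krHom F F (Fin k) (Fin m)) e ha).1
  have hc' := (Ex.map (krHom F F (Fin k) (Fin m)) e hc).1
  have hd' := (Ex.map (krHom F F (Fin k) (Fin m)) e hd).1
  have h1 := (tri_ev 0 0 0 e ha' hc' hd').1
  have h2 := (Ex.ok_prod e h1 hw).1
  exact (Ex.map (Bl F F (Fin k × Fin m) (Fin n₀)) e h2).1

variable {ι : Type} [Fintype ι] [DecidableEq ι] (ε : ι ≃ Ix k m n₀)

/-- the entries which are used -/
noncomputable def Nl (e : Ex F V) (i₀ j₀ : Fin k) (l : Fin m × Fin m) : Rt F (V × ι × ι) :=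
  e.ev (genM F V ι) (ε.symm (.inl (0, (i₀, l.1)))) (ε.symm (.inl (2, (j₀, l.2))))

/-- the directions, reindexed -/
noncomputable def fX (b : V → Matrix (Fin k) (Fin k) F) (i : Fin m × Fin m) : V × ι × ι → F :=
  flat fun v => (dX m n₀ b i v).submatrix ε ε

/-- the directions, reindexed -/
noncomputable def fY (b : V → Matrix (Fin k) (Fin k) F) (i : Fin m × Fin m) : V × ι × ι → F :=
  flat fun v => (dY m n₀ b i v).submatrix ε ε

theorem fX_fY (b b' : V → Matrix (Fin k) (Fin k) F) (i j : Fin m × Fin m) (t : V × ι × ι) :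
    fX ε b i t * fY ε b' j t = 0 := dX_dY b b' i j t.1 (ε t.2.1) (ε t.2.2)

variable {D : V × ι × ι → Rt F (V × ι × ι) → Rt F (V × ι × ι)} (hD : ∀ v, IsDer (D v))
  (hc' : ∀ v (c : F), D v (algebraMap F _ c) = 0)
  (hv : ∀ v j, D v (gz F _ j) = if j = v then 1 else 0)

include hD hc' hv

theorem lower_core [Infinite F] (hm : 1 ≤ m) (e : Ex F V)
    {a c d : V → Matrix (Fin k) (Fin k) F} (b b' : V → Matrix (Fin k) (Fin k) F)
    {w : V → Matrix (Fin n₀) (Fin n₀) F} (ha : e.Ok a) (hc : e.Ok c) (hd : e.Ok d)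
    (hw : e.Ok w) {i₀ j₀ : Fin k} (hM : dg a c d e b b' i₀ j₀ ≠ 0) {τ : Type} [Fintype τ]
    (A B C : τ → Fin m × Fin m → Rt F (V × ι × ι))
    (hT : ∀ i j l, dd D (fX ε b i) (dd D (fY ε b' j) (Nl ε e i₀ j₀ l)) =
      ∑ t, A t i * B t j * C t l) :
    (m : ℝ) ^ Pool.Agent.H826R3.SM.omegaMM F ≤ Fintype.card τ := by
  classical
  let f := (Fintype.equivFin τ).symm
  have hjet := (jet_value hD hc' hv e (fun v => (ptC (m := Fin m) F a c d w v).submatrix ε ε)
    (ok_submatrix ε e _ (ptC_ok e ha hc hd hw))).2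
  refine omega_of_border hm (flat fun v => (ptC (m := Fin m) F a c d w v).submatrix ε ε)
    (fun t => A (f t)) (fun t => B (f t)) (fun t => C (f t)) hM fun i j l => ?_
  have h1 := hjet (fun v => (dX m n₀ b i v).submatrix ε ε)
    (fun v => (dY m n₀ b' j v).submatrix ε ε) (ε.symm (.inl (0, (i₀, l.1))))
    (ε.symm (.inl (2, (j₀, l.2))))
  rw [evJ_submatrix ε e _ (ptC_ok e ha hc hd hw), ε.apply_symm_apply, ε.apply_symm_apply] at h1
  have h2 := evJ_block e b b' ha hc hd hw (Matrix.single i.1 i.2 (1 : F))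
    (Matrix.single j.1 j.2 (1 : F)) (dX m n₀ b i) (dY m n₀ b' j)
    (fun v => by
      refine Matrix.ext fun p q => ?_
      rw [Matrix.map_apply]
      rfl)
    (fun v => by
      refine Matrix.ext fun p q => ?_
      rw [Matrix.map_apply]
      rfl) (i₀, l.1) (j₀, l.2)
  rw [h2] at h1
  have h3 : ∑ t, A (f t) i * B (f t) j * C (f t) l = ∑ t, A t i * B t j * C t l :=
    f.sum_comp fun t => A t i * B t j * C t l
  rw [h3, ← hT i j l]
  have h4 : (Matrix.single i.1 i.2 (1 : F) * Matrix.single j.1 j.2 (1 : F)) l.1 l.2 =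
      if i.2 = j.1 ∧ l.1 = i.1 ∧ l.2 = j.2 then 1 else 0 := by
    by_cases h5 : i.2 = j.1
    · rw [h5, Matrix.single_mul_single_same, Matrix.single_apply]
      by_cases h6 : i.1 = l.1 <;> by_cases h7 : j.2 = l.2 <;>
        simp [h6, h7, eq_comm]
    · rw [Matrix.single_mul_single_of_ne (1 : F) i.1 i.2 j.1 h5 (1 : F)]
      simp [h5]
  rw [← h4]
  exact h1

/-- from off-diagonal second derivatives -/
theorem lower_part [Infinite F] (hm : 1 ≤ m) (e : Ex F V)
    {a c d : V → Matrix (Fin k) (Fin k) F} (b b' : V → Matrix (Fin k) (Fin k) F)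
    {w : V → Matrix (Fin n₀) (Fin n₀) F} (ha : e.Ok a) (hc : e.Ok c) (hd : e.Ok d)
    (hw : e.Ok w) {i₀ j₀ : Fin k} (hM : dg a c d e b b' i₀ j₀ ≠ 0) {τ : Type} [Fintype τ]
    (P Q : τ → V × ι × ι → Rt F (V × ι × ι)) (h : ∀ l, ∃ c : τ → Rt F (V × ι × ι), ∀ v w, v ≠ w →
      D v (D w (Nl ε e i₀ j₀ l)) = ∑ t, c t * P t v * Q t w) :
    (m : ℝ) ^ Pool.Agent.H826R3.SM.omegaMM F ≤ Fintype.card τ := by
  choose C hC using h
  refine lower_core ε hD hc' hv hm e b b' ha hc hd hw hM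
    (fun t i => ∑ v, algebraMap F _ (fX ε b i v) * P t v)
    (fun t j => ∑ v, algebraMap F _ (fY ε b' j v) * Q t v)
    (fun t l => C l t) fun i j l => ?_
  exact dir_of_part hD hc' hv (fun w => D w (Nl ε e i₀ j₀ l)) P Q (C l) (hC l) _ _
    (fX_fY ε b b' i j)

end

section

variable {F V : Type} [Field F] [Infinite F] [Fintype V] [DecidableEq V] {k m n₀ : ℕ}
  {ι : Type} [Fintype ι] [DecidableEq ι]

/-- the entries of the value of an expression at generic matrices -/
def entSet (e : Ex F V) (ι : Type) [Fintype ι] [DecidableEq ι] : Set (Rt F (V × ι × ι)) :=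
  Set.range fun t : ι × ι => e.ev (genM F V ι) t.1 t.2

variable (ε : ι ≃ Ix k m n₀) (hm : 1 ≤ m) (e : Ex F V)
    {a c d : V → Matrix (Fin k) (Fin k) F} (b b' : V → Matrix (Fin k) (Fin k) F)
    {w : V → Matrix (Fin n₀) (Fin n₀) F} (ha : e.Ok a) (hc : e.Ok c) (hd : e.Ok d)
    (hw : e.Ok w) {i₀ j₀ : Fin k} (hM : dg a c d e b b' i₀ j₀ ≠ 0)

include ε hm ha hc hd hw hM

theorem lower_U {s : ℕ} (h : CompU F (V × ι × ι) (entSet e ι) s) :
    (m : ℝ) ^ Pool.Agent.H826R3.SM.omegaMM F ≤ s := by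
  choose D hD hc' hv using exists_der F (V × ι × ι)
  obtain ⟨P, hP⟩ := two_compU hD hc' hv h
  have := lower_part ε hD hc' hv hm e b b' ha hc hd hw hM P P
    (fun l => hP _ ⟨(_, _), rfl⟩)
  simpa using this

theorem lower_M {L : ℕ} (h : CompM F (V × ι × ι) (entSet e ι) L) :
    (m : ℝ) ^ Pool.Agent.H826R3.SM.omegaMM F ≤ 2 * L := by
  choose D hD hc' hv using exists_der F (V × ι × ι)
  obtain ⟨P, Q, hP⟩ := two_compM hD hc' hv h
  have := lower_part ε hD hc' hv hm e b b' ha hc hd hw hM P Q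
    (fun l => hP _ ⟨(_, _), rfl⟩)
  rw [Fintype.card_prod, Fintype.card_fin, Fintype.card_fin] at this
  push_cast at this
  linarith

theorem lower_P {s : ℕ} (h : CompP F (V × ι × ι) (entSet e ι) s) :
    (m : ℝ) ^ Pool.Agent.H826R3.SM.omegaMM F ≤ 3 * s + (m : ℝ) ^ 2 := by
  choose D hD hc' hv using exists_der F (V × ι × ι)
  obtain ⟨P, hP⟩ := two_compP hD hc' hv h
  choose C hC using fun l : Fin m × Fin m => hP (Nl ε e i₀ j₀ l) ⟨(_, _), rfl⟩
  have key := lower_core ε hD hc' hv hm e b b' ha hc hd hw hM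
    (τ := (Fin s × Fin 3) ⊕ (Fin m × Fin m))
    (fun t i => match t with
      | .inl t => ∑ v, algebraMap F _ (fX ε b i v) * P t v
      | .inr l => dd D (fX ε b i) (Nl ε e i₀ j₀ l))
    (fun t j => match t with
      | .inl t => ∑ v, algebraMap F _ (fY ε b' j v) * P t v
      | .inr l => dd D (fY ε b' j) (Nl ε e i₀ j₀ l))
    (fun t l => match t with
      | .inl t => Nl ε e i₀ j₀ l * C l t
      | .inr l' => if l' = l then (Nl ε e i₀ j₀ l)⁻¹ else 0) (fun i j l => by
      rw [Fintype.sum_sum_type]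
      simp only [mul_ite, mul_zero, Finset.sum_ite_eq', Finset.mem_univ, if_true]
      set z := Nl ε e i₀ j₀ l with hz
      have h1 := hh_eq (dA := fun i => dd D (fX ε b i)) (dB := fun j => dd D (fY ε b' j))
        (fun i => dd_der hD _) (fun j => dd_der hD _) z
      have h2 := congrFun h1 (i, j)
      simp only [hh, Add.ll, gg, Pi.add_apply, Pi.smul_apply, smul_eq_mul] at h2
      rw [h2]
      congr 1
      · have h3 := dir_of_part hD hc' hv (fun w => D w z / z) P P (C l) (hC l)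
          (fX ε b i) (fY ε b' j) (fX_fY ε b b' i j)
        have h4 : dd D (fY ε b' j) z / z = ∑ w, algebraMap F _ (fY ε b' j w) * (D w z / z) := by
          rw [dd, Finset.sum_div]
          exact Finset.sum_congr rfl fun w _ => by rw [mul_div_assoc]
        rw [h4, h3, Finset.mul_sum]
        exact Finset.sum_congr rfl fun t _ => by ring
      · ring)
  rw [Fintype.card_sum, Fintype.card_prod, Fintype.card_prod, Fintype.card_fin,
    Fintype.card_fin, Fintype.card_fin] at key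
  push_cast at key
  nlinarith

end

end Pool.Agent.Q225.Dich
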