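import Pool.Agent.Q225.Dich.Upper

set_option autoImplicit false
set_option linter.unusedSectionVars false

/-!
# Generic points and points over the ground field
-/

namespace Pool.Agent.Q225.Dich

open Matrix Pool.Agent.Q225.Add Pool.Agent.W956.KF

section

variable {F σ : Type} [Field F]

theorem io_injective (c : σ → F) : Function.Injective (io c) := by
  rw [injective_iff_map_eq_zero]
  intro x hx
  obtain ⟨a, s, rfl⟩ := IsLocalization.exists_mk'_eq (Pc c).primeCompl x
  have h1 : IsLocalization.mk' (Sc c) a s * algebraMap _ (Sc c) (s : MvPolynomial σ F) =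
      algebraMap _ (Sc c) a := IsLocalization.mk'_spec _ _ _
  have h2 := congrArg (io c) h1
  rw [map_mul, hx, zero_mul, io_alg] at h2
  have h3 : a = 0 :=
    (IsFractionRing.injective (MvPolynomial σ F) (Rt F σ)) (h2.symm.trans (map_zero _).symm)
  rw [h3]
  exact IsLocalization.mk'_zero _

theorem Vl.unique {c : σ → F} {f : Rt F σ} {v w : F} (h1 : Vl c f v) (h2 : Vl c f w) :
    v = w := by
  obtain ⟨s, hs, rfl⟩ := h1
  obtain ⟨t, ht, rfl⟩ := h2
  rw [io_injective c (hs.trans ht.symm)]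

theorem Vl.add {c : σ → F} {f g : Rt F σ} {v w : F} (h1 : Vl c f v) (h2 : Vl c g w) :
    Vl c (f + g) (v + w) := by
  obtain ⟨s, rfl, rfl⟩ := h1
  obtain ⟨t, rfl, rfl⟩ := h2
  exact ⟨s + t, map_add _ _ _, map_add _ _ _⟩

theorem Vl.mul {c : σ → F} {f g : Rt F σ} {v w : F} (h1 : Vl c f v) (h2 : Vl c g w) :
    Vl c (f * g) (v * w) := by
  obtain ⟨s, rfl, rfl⟩ := h1
  obtain ⟨t, rfl, rfl⟩ := h2
  exact ⟨s * t, map_mul _ _ _, map_mul _ _ _⟩

theorem Vl.poly (c : σ → F) (a : MvPolynomial σ F) :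
    Vl c (algebraMap _ (Rt F σ) a) (MvPolynomial.aeval c a) :=
  ⟨algebraMap _ (Sc c) a, io_alg c a, pr_alg c a⟩

theorem exists_value {f : Rt F σ} (hf : f ≠ 0) : ∃ P : MvPolynomial σ F, P ≠ 0 ∧
    ∀ c v, MvPolynomial.aeval c P ≠ 0 → Vl c f v → v ≠ 0 := by
  obtain ⟨a, g, hg, rfl⟩ := IsFractionRing.div_surjective (MvPolynomial σ F) f
  have hg0 : algebraMap _ (Rt F σ) g ≠ 0 := fun h => nonZeroDivisors.ne_zero hg
    ((IsFractionRing.injective (MvPolynomial σ F) (Rt F σ)) (h.trans (map_zero _).symm))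
  refine ⟨a, ?_, fun c v hc hv h0 => ?_⟩
  · rintro rfl
    rw [map_zero, zero_div] at hf
    exact hf rfl
  · subst h0
    have h1 := hv.mul (Vl.poly c g)
    rw [div_mul_cancel₀ _ hg0, zero_mul] at h1
    exact hc ((Vl.poly c a).unique h1)

end

section

variable {F V ι : Type} [Field F] [Fintype V] [DecidableEq V] [Fintype ι] [DecidableEq ι]

/-- values of expressions -/
theorem value (e : Ex F V) (C : V → Matrix ι ι F) (hC : e.Ok C) :
    e.Ok (genM F V ι) ∧ ∃ s : Matrix ι ι (Sc (flat C)),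
      (io (flat C)).mapMatrix s = e.ev (genM F V ι) ∧ (pr (flat C)).mapMatrix s = e.ev C := by
  let s : V → Matrix ι ι (Sc (flat C)) := fun v => Matrix.of fun i j =>
    algebraMap (MvPolynomial (V × ι × ι) F) (Sc (flat C)) (MvPolynomial.X (v, i, j))
  have hs : (fun v => (pr (flat C)).mapMatrix (s v)) = C := by
    funext v
    refine Matrix.ext fun i j => ?_
    rw [AlgHom.mapMatrix_apply, Matrix.map_apply]
    simp only [s, Matrix.of_apply, pr_alg, MvPolynomial.aeval_X, flat]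
  have hκ : (fun v => (io (flat C)).mapMatrix (s v)) = genM F V ι := by
    funext v
    refine Matrix.ext fun i j => ?_
    rw [AlgHom.mapMatrix_apply, Matrix.map_apply]
    simp only [s, genM, Matrix.of_apply, io_alg, gz]
  have okS : e.Ok s := by
    refine Ex.lift (pr (flat C)).mapMatrix (fun M => mat_local _ (pr_local _) M) e ?_
    rw [hs]
    exact hC
  have h1 := Ex.map (io (flat C)).mapMatrix e okS
  have h2 := Ex.map (pr (flat C)).mapMatrix e okS
  rw [hκ] at h1
  rw [hs] at h2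
  exact ⟨h1.1, e.ev s, h1.2.symm, h2.2.symm⟩

theorem value' (e : Ex F V) (C : V → Matrix ι ι F) (hC : e.Ok C) (i j : ι) :
    Vl (flat C) (e.ev (genM F V ι) i j) (e.ev C i j) := by
  obtain ⟨-, s, h1, h2⟩ := value e C hC
  refine ⟨s i j, ?_, ?_⟩
  · rw [← h1]; rfl
  · rw [← h2]; rfl

theorem value_det (e : Ex F V) (C : V → Matrix ι ι F) (hC : e.Ok C) :
    Vl (flat C) (e.ev (genM F V ι)).det (e.ev C).det := by
  obtain ⟨-, s, h1, h2⟩ := value e C hC
  refine ⟨s.det, ?_, ?_⟩
  · rw [← h1, AlgHom.map_det]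
  · rw [← h2, AlgHom.map_det]

/-- if an expression is defined for generic matrices then it is defined on an open set -/
theorem gen_open (e : Ex F V) (h : e.Ok (genM F V ι)) :
    ∃ P : MvPolynomial (V × ι × ι) F, P ≠ 0 ∧
      ∀ C : V → Matrix ι ι F, MvPolynomial.aeval (flat C) P ≠ 0 → e.Ok C := by
  induction e with
  | const c => exact ⟨1, one_ne_zero, fun _ _ => trivial⟩
  | var v => exact ⟨1, one_ne_zero, fun _ _ => trivial⟩
  | add x y hx hy =>
    obtain ⟨P, hP, hP'⟩ := hx h.1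
    obtain ⟨Q, hQ, hQ'⟩ := hy h.2
    refine ⟨P * Q, mul_ne_zero hP hQ, fun C hC => ?_⟩
    rw [map_mul] at hC
    exact ⟨hP' C (left_ne_zero_of_mul hC), hQ' C (right_ne_zero_of_mul hC)⟩
  | mul x y hx hy =>
    obtain ⟨P, hP, hP'⟩ := hx h.1
    obtain ⟨Q, hQ, hQ'⟩ := hy h.2
    refine ⟨P * Q, mul_ne_zero hP hQ, fun C hC => ?_⟩
    rw [map_mul] at hC
    exact ⟨hP' C (left_ne_zero_of_mul hC), hQ' C (right_ne_zero_of_mul hC)⟩
  | inv x hx =>
    obtain ⟨P, hP, hP'⟩ := hx h.1
    have hdet : (x.ev (genM F V ι)).det ≠ 0 :=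
      isUnit_iff_ne_zero.1 ((Matrix.isUnit_iff_isUnit_det _).1 h.2)
    obtain ⟨Q, hQ, hQ'⟩ := exists_value hdet
    refine ⟨P * Q, mul_ne_zero hP hQ, fun C hC => ?_⟩
    rw [map_mul] at hC
    have h1 := hP' C (left_ne_zero_of_mul hC)
    refine ⟨h1, (Matrix.isUnit_iff_isUnit_det _).2 (isUnit_iff_ne_zero.2 ?_)⟩
    exact hQ' _ _ (right_ne_zero_of_mul hC) (value_det x C h1)

theorem exists_ok [Infinite F] (e : Ex F V) (h : e.Ok (genM F V ι))
    {P : MvPolynomial (V × ι × ι) F} (hP : P ≠ 0) :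
    ∃ C : V → Matrix ι ι F, MvPolynomial.aeval (flat C) P ≠ 0 ∧ e.Ok C := by
  obtain ⟨Q, hQ, hQ'⟩ := gen_open e h
  obtain ⟨x, hx⟩ : ∃ x : V × ι × ι → F, MvPolynomial.eval x (P * Q) ≠ 0 := by
    by_contra hcon
    push Not at hcon
    exact mul_ne_zero hP hQ (MvPolynomial.funext fun p => by rw [hcon p, map_zero])
  rw [map_mul] at hx
  refine ⟨fun v => Matrix.of fun i j => x (v, i, j), ?_, hQ' _ ?_⟩
  · exact left_ne_zero_of_mul hx
  · exact right_ne_zero_of_mul hx

/-- an expression which is affine at all points over `F` is affine at the generic point -/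
theorem affine_gen [Infinite F] (e : Ex F V) (h : e.Ok (genM F V ι)) (μ : F) (lam : V → F)
    (H : ∀ C : V → Matrix ι ι F, e.Ok C →
      e.ev C = algebraMap F _ μ + ∑ v, algebraMap F _ (lam v) * C v) (i j : ι) :
    e.ev (genM F V ι) i j = algebraMap F _ (if i = j then μ else 0) +
      ∑ v, algebraMap F _ (lam v) * gz F (V × ι × ι) (v, i, j) := by
  let q : MvPolynomial (V × ι × ι) F := MvPolynomial.C (if i = j then μ else 0) +
    ∑ v, MvPolynomial.C (lam v) * MvPolynomial.X (v, i, j)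
  have hq : algebraMap F _ (if i = j then μ else 0) +
      ∑ v, algebraMap F _ (lam v) * gz F (V × ι × ι) (v, i, j) =
      algebraMap _ (Rt F (V × ι × ι)) q := by
    simp only [q, map_add, map_sum, map_mul, gz]
    rfl
  rw [hq]
  by_contra hne
  have h0 : e.ev (genM F V ι) i j + algebraMap _ (Rt F (V × ι × ι)) (-q) ≠ 0 := by
    rw [map_neg, ← sub_eq_add_neg]
    exact sub_ne_zero.2 hne
  obtain ⟨P, hP, hP'⟩ := exists_value h0
  obtain ⟨C, hC, hok⟩ := exists_ok e h hP
  refine hP' _ _ hC ((value' e C hok i j).add (Vl.poly _ (-q))) ?_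
  rw [map_neg, ← sub_eq_add_neg, sub_eq_zero, H C hok]
  simp only [q, map_add, map_sum, map_mul, MvPolynomial.aeval_X, MvPolynomial.aeval_C,
    Matrix.add_apply, Matrix.sum_apply, flat]
  congr 1
  refine Finset.sum_congr rfl fun v _ => ?_
  rw [← Algebra.smul_def, Matrix.smul_apply, smul_eq_mul]
  simp

end

end Pool.Agent.Q225.Dich
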