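import Pool.Agent.Q225.Dich.Expr

set_option autoImplicit false
set_option linter.unusedSectionVars false

/-!
# Expressions at triangular matrices
-/

namespace Pool.Agent.Q225.Dich

section

variable {F V R : Type} [Field F] [Ring R] [Algebra F R]

/-- an upper triangular matrix -/
def tri {R : Type} [Zero R] (a b z c b' d : R) : Matrix (Fin 3) (Fin 3) R :=
  !![a, b, z; 0, c, b'; 0, 0, d]

theorem tri_mul (a b z c b' d a₁ b₁ z₁ c₁ b₁' d₁ : R) :
    tri a b z c b' d * tri a₁ b₁ z₁ c₁ b₁' d₁ =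
      tri (a * a₁) (a * b₁ + b * c₁) (a * z₁ + b * b₁' + z * d₁) (c * c₁) (c * b₁' + b' * d₁)
        (d * d₁) := by
  ext i j
  fin_cases i <;> fin_cases j <;> simp [tri, Matrix.mul_apply, Fin.sum_univ_three]

theorem tri_add (a b z c b' d a₁ b₁ z₁ c₁ b₁' d₁ : R) :
    tri a b z c b' d + tri a₁ b₁ z₁ c₁ b₁' d₁ =
      tri (a + a₁) (b + b₁) (z + z₁) (c + c₁) (b' + b₁') (d + d₁) := by
  ext i j
  fin_cases i <;> fin_cases j <;> simp [tri]

theorem tri_one : tri (1 : R) 0 0 1 0 1 = 1 := by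
  ext i j
  fin_cases i <;> fin_cases j <;> simp [tri]

theorem tri_const (c : F) : algebraMap F (Matrix (Fin 3) (Fin 3) R) c =
    tri (algebraMap F R c) 0 0 (algebraMap F R c) 0 (algebraMap F R c) := by
  rw [Matrix.algebraMap_eq_diagonal]
  ext i j
  fin_cases i <;> fin_cases j <;> simp [tri]

theorem tri_inj {a b z c b' d a₁ b₁ z₁ c₁ b₁' d₁ : R}
    (h : tri a b z c b' d = tri a₁ b₁ z₁ c₁ b₁' d₁) :
    a = a₁ ∧ b = b₁ ∧ z = z₁ ∧ c = c₁ ∧ b' = b₁' ∧ d = d₁ := by
  have e := fun i j => congrFun (congrFun h i) j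
  exact ⟨e 0 0, e 0 1, e 0 2, e 1 1, e 1 2, e 2 2⟩

theorem tri_inverse {a b z c b' d : R} (ha : IsUnit a) (hc : IsUnit c) (hd : IsUnit d) :
    IsUnit (tri a b z c b' d) ∧ Ring.inverse (tri a b z c b' d) =
      tri (Ring.inverse a) (-(Ring.inverse a * b * Ring.inverse c))
        (Ring.inverse a * b * Ring.inverse c * b' * Ring.inverse d -
          Ring.inverse a * z * Ring.inverse d) (Ring.inverse c)
        (-(Ring.inverse c * b' * Ring.inverse d)) (Ring.inverse d) := by
  obtain ⟨a, rfl⟩ := ha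
  obtain ⟨c, rfl⟩ := hc
  obtain ⟨d, rfl⟩ := hd
  simp only [Ring.inverse_unit]
  have h1 : tri (a : R) b z c b' d * tri (↑a⁻¹ : R) (-(↑a⁻¹ * b * ↑c⁻¹))
      (↑a⁻¹ * b * ↑c⁻¹ * b' * ↑d⁻¹ - ↑a⁻¹ * z * ↑d⁻¹) ↑c⁻¹ (-(↑c⁻¹ * b' * ↑d⁻¹)) ↑d⁻¹ = 1 := by
    rw [tri_mul, ← tri_one]
    congr 1
    · simp
    · simp [mul_assoc]
    · simp [mul_assoc, mul_sub]
      abel
    · simp
    · simp [mul_assoc]
    · simp
  have h2 : tri (↑a⁻¹ : R) (-(↑a⁻¹ * b * ↑c⁻¹))
      (↑a⁻¹ * b * ↑c⁻¹ * b' * ↑d⁻¹ - ↑a⁻¹ * z * ↑d⁻¹) ↑c⁻¹ (-(↑c⁻¹ * b' * ↑d⁻¹)) ↑d⁻¹ *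
      tri (a : R) b z c b' d = 1 := by
    rw [tri_mul, ← tri_one]
    congr 1
    · simp
    · simp [mul_assoc]
    · simp [mul_assoc, sub_mul]
      abel
    · simp
    · simp [mul_assoc]
    · simp
  let u : (Matrix (Fin 3) (Fin 3) R)ˣ := ⟨_, _, h1, h2⟩
  exact ⟨⟨u, rfl⟩, Ring.inverse_unit u⟩

/-- the first difference-differential -/
noncomputable def df (a c : V → R) : Ex F V → (V → R) → R
  | .const _, _ => 0
  | .var v, b => b v
  | .add x y, b => df a c x b + df a c y b
  | .mul x y, b => x.ev a * df a c y b + df a c x b * y.ev c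
  | .inv x, b => -(Ring.inverse (x.ev a) * df a c x b * Ring.inverse (x.ev c))

/-- the second difference-differential -/
noncomputable def dg (a c d : V → R) : Ex F V → (V → R) → (V → R) → R
  | .const _, _, _ => 0
  | .var _, _, _ => 0
  | .add x y, b, b' => dg a c d x b b' + dg a c d y b b'
  | .mul x y, b, b' => x.ev a * dg a c d y b b' + df a c x b * df c d y b' +
      dg a c d x b b' * y.ev d
  | .inv x, b, b' => Ring.inverse (x.ev a) * df a c x b * Ring.inverse (x.ev c) *
      df c d x b' * Ring.inverse (x.ev d) -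
      Ring.inverse (x.ev a) * dg a c d x b b' * Ring.inverse (x.ev d)

theorem tri_ev {a c d : V → R} (b b' z : V → R) (e : Ex F V) (ha : e.Ok a) (hc : e.Ok c)
    (hd : e.Ok d) :
    e.Ok (fun v => tri (a v) (b v) (z v) (c v) (b' v) (d v)) ∧
    e.ev (fun v => tri (a v) (b v) (z v) (c v) (b' v) (d v)) =
      tri (e.ev a) (df a c e b) (df a d e z + dg a c d e b b') (e.ev c) (df c d e b')
        (e.ev d) := by
  induction e with
  | const x =>
    refine ⟨trivial, ?_⟩
    simp only [Ex.ev, df, dg, add_zero]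
    exact tri_const x
  | var v =>
    refine ⟨trivial, ?_⟩
    simp only [Ex.ev, df, dg, add_zero]
  | add x y hx hy =>
    obtain ⟨h1, h2⟩ := hx ha.1 hc.1 hd.1
    obtain ⟨h3, h4⟩ := hy ha.2 hc.2 hd.2
    refine ⟨⟨h1, h3⟩, ?_⟩
    simp only [Ex.ev, df, dg, h2, h4, tri_add]
    congr 1
    abel
  | mul x y hx hy =>
    obtain ⟨h1, h2⟩ := hx ha.1 hc.1 hd.1
    obtain ⟨h3, h4⟩ := hy ha.2 hc.2 hd.2
    refine ⟨⟨h1, h3⟩, ?_⟩
    simp only [Ex.ev, df, dg, h2, h4, tri_mul]
    congr 1
    noncomm_ring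
  | inv x hx =>
    obtain ⟨h1, h2⟩ := hx ha.1 hc.1 hd.1
    have h3 := tri_inverse (b := df a c x b) (z := df a d x z + dg a c d x b b')
      (b' := df c d x b') ha.2 hc.2 hd.2
    refine ⟨⟨h1, ?_⟩, ?_⟩
    · rw [h2]
      exact h3.1
    · simp only [Ex.ev, df, dg, h2]
      rw [h3.2]
      congr 1
      noncomm_ring

theorem df_zero (a c : V → R) (e : Ex F V) : df a c e 0 = 0 := by
  induction e with
  | const x => rfl
  | var v => rfl
  | add x y hx hy => simp only [df, hx, hy, add_zero]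
  | mul x y hx hy => simp only [df, hx, hy, mul_zero, zero_mul, add_zero]
  | inv x hx => simp only [df, hx, mul_zero, zero_mul, neg_zero]

theorem df_add (a c : V → R) (e : Ex F V) (b b₁ : V → R) :
    df a c e (b + b₁) = df a c e b + df a c e b₁ := by
  induction e with
  | const x => simp only [df, add_zero]
  | var v => rfl
  | add x y hx hy => simp only [df, hx, hy]; abel
  | mul x y hx hy => simp only [df, hx, hy, mul_add, add_mul]; abel
  | inv x hx => simp only [df, hx, mul_add, add_mul, neg_add]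

theorem dg_zero_right (a c d : V → R) (e : Ex F V) (b : V → R) : dg a c d e b 0 = 0 := by
  induction e with
  | const x => rfl
  | var v => rfl
  | add x y hx hy => simp only [dg, hx, hy, add_zero]
  | mul x y hx hy => simp only [dg, hx, hy, df_zero, mul_zero, zero_mul, add_zero]
  | inv x hx => simp only [dg, hx, df_zero, mul_zero, zero_mul, sub_zero]

theorem dg_zero_left (a c d : V → R) (e : Ex F V) (b : V → R) : dg a c d e 0 b = 0 := by
  induction e with
  | const x => rfl
  | var v => rfl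
  | add x y hx hy => simp only [dg, hx, hy, add_zero]
  | mul x y hx hy => simp only [dg, hx, hy, df_zero, mul_zero, zero_mul, add_zero]
  | inv x hx => simp only [dg, hx, df_zero, mul_zero, zero_mul, sub_zero]

theorem df_sum [Fintype V] [DecidableEq V] (a c : V → R) (e : Ex F V) (b : V → R) :
    df a c e b = ∑ v, df a c e (Pi.single v (b v)) := by
  let f : (V → R) →+ R := ⟨⟨df a c e, df_zero a c e⟩, df_add a c e⟩
  have h : f b = ∑ v, f (Pi.single v (b v)) := by
    rw [← map_sum, Finset.univ_sum_single]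
  exact h

/-- conjugation -/
noncomputable def conj {A : Type} [Ring A] [Algebra F A] (p q : A) (hpq : p * q = 1)
    (hqp : q * p = 1) : A →ₐ[F] A where
  toFun x := p * x * q
  map_one' := by rw [mul_one, hpq]
  map_mul' x y := by
    have : p * (x * y) * q = p * x * (1 * y) * q := by rw [one_mul, mul_assoc p x y]
    rw [this, ← hqp]
    noncomm_ring
  map_zero' := by rw [mul_zero, zero_mul]
  map_add' x y := by rw [mul_add, add_mul]
  commutes' c := by
    rw [← Algebra.commutes, mul_assoc, hpq, mul_one]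

/-- the second difference-differentials vanish identically -/
def Flat (F V R : Type) [Field F] [Ring R] [Algebra F R] (e : Ex F V) : Prop :=
  ∀ a c d : V → R, e.Ok a → e.Ok c → e.Ok d → ∀ b b' : V → R, dg a c d e b b' = 0

theorem df_gauge {a c : V → R} {e : Ex F V} (ha : e.Ok a) (hc : e.Ok c) (s : R) :
    df a c e (fun v => s * c v - a v * s) = s * e.ev c - e.ev a * s := by
  have h1 : tri (1 : R) s 0 1 0 1 * tri 1 (-s) 0 1 0 1 = 1 := by
    rw [tri_mul, ← tri_one]; congr 1 <;> simp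
  have h2 : tri (1 : R) (-s) 0 1 0 1 * tri 1 s 0 1 0 1 = 1 := by
    rw [tri_mul, ← tri_one]; congr 1 <;> simp
  obtain ⟨h3, h4⟩ := tri_ev (0 : V → R) 0 0 e ha hc hc
  obtain ⟨h5, h6⟩ := Ex.map (conj (F := F) _ _ h1 h2) e h3
  have e1 : (fun v => conj (F := F) _ _ h1 h2 (tri (a v) ((0 : V → R) v) ((0 : V → R) v) (c v)
      ((0 : V → R) v) (c v))) = fun v => tri (a v) (s * c v - a v * s) ((0 : V → R) v) (c v)
      ((0 : V → R) v) (c v) := by
    funext v
    show tri (1 : R) s 0 1 0 1 * _ * _ = _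
    rw [tri_mul, tri_mul]
    congr 1 <;> simp
    abel
  rw [e1, (tri_ev (fun v => s * c v - a v * s) 0 0 e ha hc hc).2, h4] at h6
  have h7 : conj (F := F) _ _ h1 h2 (tri (e.ev a) (df a c e 0) (df a c e 0 + dg a c c e 0 0)
      (e.ev c) (df c c e 0) (e.ev c)) = tri (e.ev a) (s * e.ev c - e.ev a * s) 0 (e.ev c) 0
      (e.ev c) := by
    show tri (1 : R) s 0 1 0 1 * _ * _ = _
    rw [tri_mul, tri_mul, df_zero, df_zero, dg_zero_left]
    congr 1 <;> simp
    abel
  rw [h7] at h6
  exact (tri_inj h6).2.1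

theorem Flat.right {e : Ex F V} (H : Flat F V R e) {a c d : V → R} (ha : e.Ok a) (hc : e.Ok c)
    (hd : e.Ok d) (b : V → R) (s : R) :
    df a d e (fun v => b v * s) = df a c e b * s := by
  have h1 : tri (1 : R) 0 0 1 s 1 * tri 1 0 0 1 (-s) 1 = 1 := by
    rw [tri_mul, ← tri_one]; congr 1 <;> simp
  have h2 : tri (1 : R) 0 0 1 (-s) 1 * tri 1 0 0 1 s 1 = 1 := by
    rw [tri_mul, ← tri_one]; congr 1 <;> simp
  obtain ⟨h3, h4⟩ := tri_ev b (0 : V → R) (fun v => b v * s) e ha hc hd
  obtain ⟨h5, h6⟩ := Ex.map (conj (F := F) _ _ h1 h2) e h3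
  have e1 : (fun v => conj (F := F) _ _ h1 h2 (tri (a v) (b v) (b v * s) (c v)
      ((0 : V → R) v) (d v))) = fun v => tri (a v) (b v) ((0 : V → R) v) (c v)
      (s * d v - c v * s) (d v) := by
    funext v
    show tri (1 : R) 0 0 1 s 1 * _ * _ = _
    rw [tri_mul, tri_mul]
    congr 1 <;> simp
    abel
  rw [e1, (tri_ev b (fun v => s * d v - c v * s) 0 e ha hc hd).2, h4] at h6
  have h7 : conj (F := F) _ _ h1 h2 (tri (e.ev a) (df a c e b)
      (df a d e (fun v => b v * s) + dg a c d e b 0) (e.ev c) (df c d e 0) (e.ev d)) =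
      tri (e.ev a) (df a c e b) (df a d e (fun v => b v * s) - df a c e b * s) (e.ev c)
      (s * e.ev d - e.ev c * s) (e.ev d) := by
    show tri (1 : R) 0 0 1 s 1 * _ * _ = _
    rw [tri_mul, tri_mul, df_zero, dg_zero_right]
    congr 1 <;> simp
    · abel
    · abel
  rw [h7] at h6
  have h8 := (tri_inj h6).2.2.1
  rw [df_zero, H a c d ha hc hd, add_zero] at h8
  exact (sub_eq_zero.1 h8.symm)

theorem Flat.left {e : Ex F V} (H : Flat F V R e) {a c d : V → R} (ha : e.Ok a) (hc : e.Ok c)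
    (hd : e.Ok d) (b : V → R) (s : R) :
    df a d e (fun v => s * b v) = s * df c d e b := by
  have h1 : tri (1 : R) s 0 1 0 1 * tri 1 (-s) 0 1 0 1 = 1 := by
    rw [tri_mul, ← tri_one]; congr 1 <;> simp
  have h2 : tri (1 : R) (-s) 0 1 0 1 * tri 1 s 0 1 0 1 = 1 := by
    rw [tri_mul, ← tri_one]; congr 1 <;> simp
  obtain ⟨h3, h4⟩ := tri_ev (0 : V → R) b (fun v => -(s * b v)) e ha hc hd
  obtain ⟨h5, h6⟩ := Ex.map (conj (F := F) _ _ h1 h2) e h3
  have e1 : (fun v => conj (F := F) _ _ h1 h2 (tri (a v) ((0 : V → R) v) (-(s * b v)) (c v)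
      (b v) (d v))) = fun v => tri (a v) (s * c v - a v * s) ((0 : V → R) v) (c v)
      (b v) (d v) := by
    funext v
    show tri (1 : R) s 0 1 0 1 * _ * _ = _
    rw [tri_mul, tri_mul]
    congr 1 <;> simp
    abel
  rw [e1, (tri_ev (fun v => s * c v - a v * s) b 0 e ha hc hd).2, h4] at h6
  have h7 : conj (F := F) _ _ h1 h2 (tri (e.ev a) (df a c e 0)
      (df a d e (fun v => -(s * b v)) + dg a c d e 0 b) (e.ev c) (df c d e b) (e.ev d)) =
      tri (e.ev a) (s * e.ev c - e.ev a * s)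
      (df a d e (fun v => -(s * b v)) + s * df c d e b) (e.ev c) (df c d e b) (e.ev d) := by
    show tri (1 : R) s 0 1 0 1 * _ * _ = _
    rw [tri_mul, tri_mul, df_zero, dg_zero_left]
    congr 1 <;> simp
    abel
  rw [h7] at h6
  have h8 := (tri_inj h6).2.2.1
  rw [df_zero, H a c d ha hc hd, add_zero] at h8
  have h9 : df a d e (fun v => -(s * b v)) = - df a d e (fun v => s * b v) := by
    have := df_add a d e (fun v => s * b v) (fun v => -(s * b v))
    have e2 : ((fun v => s * b v) + fun v => -(s * b v)) = (0 : V → R) := by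
      funext v
      simp
    rw [e2, df_zero] at this
    exact (neg_eq_of_add_eq_zero_right this.symm).symm
  rw [h9] at h8
  have h10 : s * df c d e b = df a d e (fun v => s * b v) := by
    have := h8
    rw [eq_comm, neg_add_eq_zero] at this
    exact this.symm
  exact h10.symm

/-- **Expressions with vanishing second difference-differentials are affine.** -/
theorem Flat.affine [Fintype V] [DecidableEq V] {e : Ex F V} (H : Flat F V R e)
    (hR : ∀ x : R, (∀ s, s * x = x * s) → ∃ c : F, x = algebraMap F R c) (a₀ : V → R)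
    (h₀ : e.Ok a₀) :
    ∃ (μ : F) (lam : V → F), (∀ a c : V → R, e.Ok a → e.Ok c → ∀ v,
      df a c e (Pi.single v 1) = algebraMap F R (lam v)) ∧
      ∀ a : V → R, e.Ok a → e.ev a = algebraMap F R μ + ∑ v, algebraMap F R (lam v) * a v := by
  have hsingle : ∀ (v : V) (s : R), (Pi.single v s : V → R) =
      fun w => (Pi.single v 1 : V → R) w * s := by
    intro v s
    funext w
    by_cases h : w = v
    · subst h; simp
    · simp [Pi.single_eq_of_ne h]
  have hsingle' : ∀ (v : V) (s : R), (Pi.single v s : V → R) =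
      fun w => s * (Pi.single v 1 : V → R) w := by
    intro v s
    funext w
    by_cases h : w = v
    · subst h; simp
    · simp [Pi.single_eq_of_ne h]
  -- the derivatives do not depend on the points
  have h1 : ∀ (a c : V → R), e.Ok a → e.Ok c → ∀ v s,
      df a c e (Pi.single v s) = df a₀ a₀ e (Pi.single v 1) * s := by
    intro a c ha hc v s
    rw [hsingle v s, H.right ha h₀ hc]
    congr 1
    have := H.left (d := a₀) ha h₀ h₀ (Pi.single v 1) 1
    simp only [one_mul] at this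
    exact this
  have h2 : ∀ (a c : V → R), e.Ok a → e.Ok c → ∀ v s,
      df a c e (Pi.single v s) = s * df a₀ a₀ e (Pi.single v 1) := by
    intro a c ha hc v s
    rw [hsingle' v s, H.left ha h₀ hc, h1 a₀ c h₀ hc, mul_one]
  have h3 : ∀ v, ∃ c : F, df a₀ a₀ e (Pi.single v 1) = algebraMap F R c := fun v =>
    hR _ fun s => by rw [← h2 a₀ a₀ h₀ h₀ v s, h1 a₀ a₀ h₀ h₀ v s]
  choose lam hlam using h3
  have h4 : ∀ (a c : V → R), e.Ok a → e.Ok c → ∀ b, df a c e b =
      ∑ v, algebraMap F R (lam v) * b v := by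
    intro a c ha hc b
    rw [df_sum]
    refine Finset.sum_congr rfl fun v _ => ?_
    rw [h1 a c ha hc, hlam]
  have h5 : ∀ a, e.Ok a → ∀ s, s * (e.ev a₀ - ∑ v, algebraMap F R (lam v) * a₀ v) =
      (e.ev a - ∑ v, algebraMap F R (lam v) * a v) * s := by
    intro a ha s
    have h6 := df_gauge ha h₀ s
    rw [h4 a a₀ ha h₀] at h6
    have h7 : ∑ v, algebraMap F R (lam v) * (s * a₀ v - a v * s) =
        s * (∑ v, algebraMap F R (lam v) * a₀ v) - (∑ v, algebraMap F R (lam v) * a v) * s := by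
      rw [Finset.mul_sum, Finset.sum_mul, ← Finset.sum_sub_distrib]
      refine Finset.sum_congr rfl fun v _ => ?_
      have h7a : algebraMap F R (lam v) * (s * a₀ v) = s * (algebraMap F R (lam v) * a₀ v) := by
        rw [← mul_assoc, Algebra.commutes, mul_assoc]
      rw [mul_sub, h7a, mul_assoc (algebraMap F R (lam v)) (a v) s]
    rw [h7] at h6
    rw [mul_sub, sub_mul]
    have h8 : s * e.ev a₀ = e.ev a * s + (s * (∑ v, algebraMap F R (lam v) * a₀ v) -
        (∑ v, algebraMap F R (lam v) * a v) * s) := by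
      rw [h6]; abel
    rw [h8]
    abel
  have h6 : ∀ a, e.Ok a → e.ev a - ∑ v, algebraMap F R (lam v) * a v =
      e.ev a₀ - ∑ v, algebraMap F R (lam v) * a₀ v := by
    intro a ha
    have := h5 a ha 1
    rw [one_mul, mul_one] at this
    exact this.symm
  obtain ⟨μ, hμ⟩ := hR (e.ev a₀ - ∑ v, algebraMap F R (lam v) * a₀ v) fun s => h5 a₀ h₀ s
  refine ⟨μ, lam, fun a c ha hc v => ?_, fun a ha => ?_⟩
  · rw [h1 a c ha hc, mul_one, hlam]
  · have := h6 a ha
    rw [hμ, sub_eq_iff_eq_add] at this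
    exact this

end

end Pool.Agent.Q225.Dich
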