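import Pool.Agent.Q225.Dich.Lower
import Pool.Agent.Q225.Add.InvFinal

set_option autoImplicit false
set_option linter.unusedSectionVars false

/-!
# Upper bounds for expressions
-/

namespace Pool.Agent.Q225.Dich

open Matrix Pool.Agent.Q225.Add Pool.Agent.W956.KF

section good

variable {F L : Type} [Field F] [Infinite F] [Field L] [Algebra F L] {n : ℕ}

/-- principal minors for subsets -/
theorem good_of_finset {ι : Type} [Fintype ι] [DecidableEq ι] {G : Matrix ι ι L}
    (h : ∀ S : Finset ι, (G.submatrix (Subtype.val : S → ι) Subtype.val).det ≠ 0) : Good G := by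
  intro κ _ _ e he
  let S : Finset ι := Finset.univ.image e
  let f : κ ≃ S := Equiv.ofBijective (fun x => ⟨e x, Finset.mem_image_of_mem e (Finset.mem_univ x)⟩)
    ⟨fun x y hxy => he (congrArg Subtype.val hxy), fun ⟨y, hy⟩ => by
      obtain ⟨x, -, hx⟩ := Finset.mem_image.1 hy
      exact ⟨x, Subtype.ext hx⟩⟩
  have h1 : G.submatrix e e =
      (G.submatrix (Subtype.val : S → ι) Subtype.val).submatrix f f := rfl
  rw [h1, Matrix.det_submatrix_equiv_self]
  exact h S

theorem exists_good (M : Matrix (Fin n) (Fin n) L) (hM : M.det ≠ 0) (l : ℕ) :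
    ∃ P : Matrix (Fin n) (Fin n) F, Good (fromBlocks (P.map (algebraMap F L) * M) 0 0
      (1 : Matrix (Fin l) (Fin l) L)) := by
  classical
  let Y : Matrix (Fin n) (Fin n) (MvPolynomial (Fin n × Fin n) L) :=
    Matrix.of fun i j => MvPolynomial.X (i, j)
  let G : Matrix (Fin n ⊕ Fin l) (Fin n ⊕ Fin l) (MvPolynomial (Fin n × Fin n) L) :=
    fromBlocks (Y * M.map MvPolynomial.C) 0 0 1
  have hG : ∀ x : Matrix (Fin n) (Fin n) L,
      G.map (MvPolynomial.eval fun t => x t.1 t.2) = fromBlocks (x * M) 0 0 1 := by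
    intro x
    ext (i | i) (j | j)
    · simp [G, Y, Matrix.mul_apply]
    · simp [G]
    · simp [G]
    · simp only [G, Matrix.map_apply, fromBlocks_apply₂₂, Matrix.one_apply]
      split_ifs <;> simp
  let p : Finset (Fin n ⊕ Fin l) → MvPolynomial (Fin n × Fin n) L := fun S =>
    (G.submatrix (Subtype.val : S → _) Subtype.val).det
  have hp : ∀ (x : Matrix (Fin n) (Fin n) L) (S : Finset (Fin n ⊕ Fin l)),
      MvPolynomial.eval (fun t => x t.1 t.2) (p S) = ((fromBlocks (x * M) 0 0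
        (1 : Matrix (Fin l) (Fin l) L)).submatrix (Subtype.val : S → _) Subtype.val).det := by
    intro x S
    simp only [p]
    rw [RingHom.map_det, ← hG x]
    rfl
  have hp0 : ∀ S, p S ≠ 0 := by
    intro S h
    have h1 := hp M⁻¹ S
    rw [h, map_zero, Matrix.nonsing_inv_mul _ (isUnit_iff_ne_zero.2 hM), fromBlocks_one,
      Matrix.submatrix_one _ Subtype.val_injective, Matrix.det_one] at h1
    exact zero_ne_one h1
  have hq : (∏ S, p S) ≠ 0 := Finset.prod_ne_zero_iff.2 fun S _ => hp0 S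
  obtain ⟨x, hx1, hx2⟩ : ∃ x ∈ Set.pi Set.univ
      (fun _ : Fin n × Fin n => Set.range (algebraMap F L)),
      MvPolynomial.eval x (∏ S, p S) ≠ 0 := by
    by_contra hcon
    push Not at hcon
    refine hq (MvPolynomial.funext_set _ (fun _ => Set.infinite_range_of_injective
      (algebraMap F L).injective) fun x hx => ?_)
    rw [hcon x hx, map_zero]
  choose P hP using fun t : Fin n × Fin n => hx1 t (Set.mem_univ t)
  refine ⟨Matrix.of fun i j => P (i, j), good_of_finset fun S => ?_⟩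
  have h1 : x = fun t => ((Matrix.of fun i j => P (i, j)).map (algebraMap F L)) t.1 t.2 := by
    funext t
    exact (hP t).symm
  rw [← hp, ← h1]
  rw [map_prod] at hx2
  exact Finset.prod_ne_zero_iff.1 hx2 S (Finset.mem_univ S)

theorem reach_inverse {T : Set L} (hT : ∀ c : F, algebraMap F L c ∈ T)
    (M : Matrix (Fin n) (Fin n) L) (hM : ∀ i j, M i j ∈ T) (hU : M.det ≠ 0) :
    ∃ T', ReachLe T (2 * sizeMM F n + invCost F (Nat.clog 2 n)) T' ∧ ∀ i j, M⁻¹ i j ∈ T' := by
  have hn : n ≤ 2 ^ Nat.clog 2 n := Nat.le_pow_clog (by norm_num) n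
  obtain ⟨P, hG⟩ := exists_good (F := F) M hU (2 ^ Nat.clog 2 n - n)
  set P' := P.map (algebraMap F L) with hP'
  have hP'T : ∀ i j, P' i j ∈ T := fun i j => hT _
  obtain ⟨T1, r1, h1⟩ := reachLe_mm (costMM_sizeMM F n) hT hP'T hM
  have s1 := r1.subset
  have hc := costInv_pow F (Nat.clog 2 n) (Fin n ⊕ Fin (2 ^ Nat.clog 2 n - n)) (by
    rw [Fintype.card_sum, Fintype.card_fin, Fintype.card_fin]
    omega)
  have h0' : (0 : L) ∈ T1 := s1 (by simpa using hT 0)
  have h1' : (1 : L) ∈ T1 := s1 (by simpa using hT 1)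
  obtain ⟨T2, r2, h2, -⟩ := hc L T1 (fun c => s1 (hT c)) _ (by
      rintro (i | i) (j | j)
      · exact h1 i j
      · exact h0'
      · exact h0'
      · simp only [fromBlocks_apply₂₂, Matrix.one_apply]
        split_ifs
        · exact h1'
        · exact h0') hG
  have s2 := s1.trans r2.subset
  have hdet : (P' * M).det ≠ 0 := by
    have := hG.det_ne_zero
    rw [det_fromBlocks_zero₂₁, det_one, mul_one] at this
    exact this
  have hinv : (fromBlocks (P' * M) 0 0
      (1 : Matrix (Fin (2 ^ Nat.clog 2 n - n)) (Fin (2 ^ Nat.clog 2 n - n)) L))⁻¹ =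
      fromBlocks (P' * M)⁻¹ 0 0 1 := by
    refine Matrix.inv_eq_right_inv ?_
    rw [fromBlocks_multiply, Matrix.mul_nonsing_inv _ (isUnit_iff_ne_zero.2 hdet)]
    simp
  have h3 : ∀ i j, (P' * M)⁻¹ i j ∈ T2 := by
    intro i j
    have := h2 (.inl i) (.inl j)
    rw [hinv] at this
    exact this
  obtain ⟨T3, r3, h4⟩ := reachLe_mm (costMM_sizeMM F n) (fun c => s2 (hT c)) h3
    (fun i j => s2 (hP'T i j))
  refine ⟨T3, ((r1.trans r2).trans r3).mono (by omega), fun i j => ?_⟩
  have h5 : (P' * M)⁻¹ * P' = M⁻¹ := by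
    refine (Matrix.inv_eq_left_inv ?_).symm
    rw [Matrix.mul_assoc, Matrix.nonsing_inv_mul _ (isUnit_iff_ne_zero.2 hdet)]
  rw [← h5]
  exact h4 i j

end good

section cost

variable {F V : Type} [Field F]

/-- an upper bound for the number of operations -/
noncomputable def cost (n : ℕ) : Ex F V → ℕ
  | .const _ => 0
  | .var _ => 0
  | .add x y => cost n x + cost n y + n ^ 2
  | .mul x y => cost n x + cost n y + sizeMM F n
  | .inv x => cost n x + (2 * sizeMM F n + invCost F (Nat.clog 2 n))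

theorem reach_ex [Infinite F] {L : Type} [Field L] [Algebra F L] {n : ℕ}
    (Z : V → Matrix (Fin n) (Fin n) L) (e : Ex F V) (h : e.Ok Z) :
    ∀ {T : Set L}, (∀ c : F, algebraMap F L c ∈ T) → (∀ v i j, Z v i j ∈ T) →
    ∃ T', ReachLe T (cost n e) T' ∧ ∀ i j, e.ev Z i j ∈ T' := by
  induction e with
  | const c =>
    intro T hT hZ
    refine ⟨T, ⟨0, le_rfl, .refl⟩, fun i j => ?_⟩
    simp only [Ex.ev]
    rw [Matrix.algebraMap_matrix_apply]
    split_ifs
    · exact hT c
    · simpa using hT 0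
  | var v =>
    intro T hT hZ
    exact ⟨T, ⟨0, le_rfl, .refl⟩, hZ v⟩
  | add x y hx hy =>
    intro T hT hZ
    obtain ⟨T1, r1, h1⟩ := hx h.1 hT hZ
    obtain ⟨T2, r2, h2⟩ := hy h.2 (fun c => r1.subset (hT c)) (fun v i j => r1.subset (hZ v i j))
    obtain ⟨T3, r3, h3⟩ := reachLe_add (fun i j => r2.subset (h1 i j)) h2
    rw [Fintype.card_fin] at r3
    exact ⟨T3, (r1.trans r2).trans r3, h3⟩
  | mul x y hx hy =>
    intro T hT hZ
    obtain ⟨T1, r1, h1⟩ := hx h.1 hT hZ
    obtain ⟨T2, r2, h2⟩ := hy h.2 (fun c => r1.subset (hT c)) (fun v i j => r1.subset (hZ v i j))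
    obtain ⟨T3, r3, h3⟩ := reachLe_mm (costMM_sizeMM F n)
      (fun c => r2.subset (r1.subset (hT c))) (fun i j => r2.subset (h1 i j)) h2
    exact ⟨T3, (r1.trans r2).trans r3, h3⟩
  | inv x hx =>
    intro T hT hZ
    obtain ⟨T1, r1, h1⟩ := hx h.1 hT hZ
    have hdet : (x.ev Z).det ≠ 0 :=
      isUnit_iff_ne_zero.1 ((Matrix.isUnit_iff_isUnit_det _).1 h.2)
    obtain ⟨T2, r2, h2⟩ := reach_inverse (F := F) (fun c => r1.subset (hT c)) _ h1 hdet
    refine ⟨T2, r1.trans r2, fun i j => ?_⟩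
    simp only [Ex.ev]
    rw [← Matrix.nonsing_inv_eq_ringInverse]
    exact h2 i j

theorem cost_upper (e : Ex F V) {τ : ℝ} (hτ : Pool.Agent.H826R3.SM.omegaMM F < τ) :
    ∃ D : ℝ, 0 ≤ D ∧ ∀ n : ℕ, 1 ≤ n → (cost n e : ℝ) ≤ D * (n : ℝ) ^ τ := by
  obtain ⟨D₁, hD₁⟩ := sizeMM_upper hτ
  obtain ⟨D₂, hD₂0, hD₂⟩ := invCost_clog hτ
  have h2 : 2 ≤ τ := (two_le_omegaMM F).trans hτ.le
  induction e with
  | const c => exact ⟨0, le_rfl, fun n _ => by simp [cost]⟩
  | var v => exact ⟨0, le_rfl, fun n _ => by simp [cost]⟩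
  | add x y hx hy =>
    obtain ⟨a, ha0, ha⟩ := hx
    obtain ⟨b, hb0, hb⟩ := hy
    refine ⟨a + b + 1, by positivity, fun n hn => ?_⟩
    have h3 : (n : ℝ) ^ 2 ≤ (n : ℝ) ^ τ := by
      rw [← Real.rpow_two]
      exact Real.rpow_le_rpow_of_exponent_le (by exact_mod_cast hn) h2
    simp only [cost]
    push_cast
    have := ha n hn
    have := hb n hn
    nlinarith
  | mul x y hx hy =>
    obtain ⟨a, ha0, ha⟩ := hx
    obtain ⟨b, hb0, hb⟩ := hy
    refine ⟨a + b + |D₁|, by positivity, fun n hn => ?_⟩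
    simp only [cost]
    push_cast
    have h3 := ha n hn
    have h4 := hb n hn
    have h5 : (sizeMM F n : ℝ) ≤ |D₁| * (n : ℝ) ^ τ :=
      (hD₁ n).trans (mul_le_mul_of_nonneg_right (le_abs_self _) (by positivity))
    nlinarith
  | inv x hx =>
    obtain ⟨a, ha0, ha⟩ := hx
    refine ⟨a + (2 * |D₁| + D₂), by positivity, fun n hn => ?_⟩
    simp only [cost]
    push_cast
    have h3 := ha n hn
    have h4 := hD₂ n hn
    have h5 : (sizeMM F n : ℝ) ≤ |D₁| * (n : ℝ) ^ τ :=
      (hD₁ n).trans (mul_le_mul_of_nonneg_right (le_abs_self _) (by positivity))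
    nlinarith

end cost

end Pool.Agent.Q225.Dich
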